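import Pool.Agent.H297R2.Pairs
import Pool.Agent.Y787.Base
/-!
Pairs of complex numbers with relations of bounded degree.
-/

set_option autoImplicit false

namespace Pool.Agent.Y787.GL
open Polynomial Bivariate Pool.Agent.H297R2
open Pool.Agent.Y787 (QC mem_QC HypC hyperplane hyperplane' Lt_one baker')

variable {Cc : Type} [Field Cc] [CharZero Cc] [IsAlgClosed Cc] {Lt : Submodule (QC Cc) Cc}
  [HypC Lt]

theorem transcendental_iff {x : Cc} : Transcendental (QC Cc) x ↔ x ∉ (QC Cc) := by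
  have : Algebra.IsAlgebraic ℚ (QC Cc) := algebraicClosure.isAlgebraic ℚ Cc
  constructor
  · intro h hx
    exact h (isAlgebraic_algebraMap (⟨x, hx⟩ : (QC Cc)))
  · intro h hx
    exact h (mem_QC.2 (hx.restrictScalars ℚ))

/-- `x` is an algebraic number, or both `x` over `u` and `u` over `x` have degree at most `D`. -/
def Good (D : ℕ) (u x : Cc) : Prop :=
  x ∈ (QC Cc) ∨ (Transcendental (QC Cc) x ∧ DegLe (QC Cc) D u x ∧ DegLe (QC Cc) D x u)

theorem degLe_one (x : Cc) (p : (QC Cc)[X]) : DegLe (QC Cc) 1 x (aeval x p) := by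
  refine ⟨Y - C p, ?_, ?_, ?_⟩
  · exact (monic_X_sub_C p).ne_zero
  · rw [natDegree_X_sub_C]
  · rw [map_sub, aevalAeval_Y, aevalAeval_C, sub_self]

theorem degLe_one' {x y : Cc} (p : (QC Cc)[X]) (h : y = aeval x p) : DegLe (QC Cc) 1 x y := by
  rw [h]; exact degLe_one x p

theorem Good.mono {D E : ℕ} (h : D ≤ E) {u x : Cc} (hx : Good D u x) : Good E u x := by
  rcases hx with hx | ⟨h1, h2, h3⟩
  · exact Or.inl hx
  · exact Or.inr ⟨h1, h2.mono h, h3.mono h⟩

theorem degLe_map (σ : Cc →ₐ[(QC Cc)] Cc) {D : ℕ} {x y : Cc} (h : DegLe (QC Cc) D x y) :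
    DegLe (QC Cc) D (σ x) (σ y) := by
  obtain ⟨P, h1, h2, h3⟩ := h
  refine ⟨P, h1, h2, ?_⟩
  have h4 : aevalAeval (σ x) (σ y) P = σ (aevalAeval x y P) := by
    have : (aevalAeval (σ x) (σ y) : (QC Cc)[X][Y] →ₐ[(QC Cc)] Cc) = σ.comp (aevalAeval x y) := by
      ext <;> simp
    rw [this]; rfl
  rw [h4, h3, map_zero]

theorem Good.map {D : ℕ} {u x : Cc} (σ : Cc →ₐ[(QC Cc)] Cc) {c : (QC Cc)} (hu : Transcendental (QC Cc) u)
    (hc : c ≠ 0) (hσ : σ u = (c : Cc) * u) (h : Good D u x) : Good D u (σ x) := by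
  rcases h with hx | ⟨h1, h2, h3⟩
  · left
    have : σ x = x := σ.commutes (⟨x, hx⟩ : (QC Cc))
    rw [this]; exact hx
  · right
    have hσi : Function.Injective σ := σ.toRingHom.injective
    have t1 : Transcendental (QC Cc) (σ x) := fun h' => h1 ((isAlgebraic_algHom_iff σ hσi).1 h')
    have t2 : Transcendental (QC Cc) (σ u) := fun h' => hu ((isAlgebraic_algHom_iff σ hσi).1 h')
    have c0 : (c : Cc) ≠ 0 := by
      intro h0; exact hc (Subtype.ext h0)
    have e1 : DegLe (QC Cc) 1 u (σ u) := degLe_one' (C c * X) (by rw [hσ]; simp)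
    have e2 : DegLe (QC Cc) 1 (σ u) u := degLe_one' (C c⁻¹ * X) (by
      rw [hσ]
      rw [map_mul, aeval_C, aeval_X]
      have : algebraMap (QC Cc) Cc c⁻¹ = (c : Cc)⁻¹ := map_inv₀ _ _
      rw [this, inv_mul_cancel_left₀ c0])
    refine ⟨t1, ?_, ?_⟩
    · have := e1.trans hu t2 (degLe_map σ h2)
      rwa [one_mul] at this
    · have := (degLe_map σ h3).trans t1 t2 e2
      rwa [mul_one] at this

theorem Good.const_sub {D : ℕ} {u x c : Cc} (hc : c ∈ (QC Cc)) (h : Good D u x) :
    Good D u (c - x) := by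
  rcases h with hx | ⟨h1, h2, h3⟩
  · left; exact (QC Cc).sub_mem hc hx
  · right
    have t1 : Transcendental (QC Cc) (c - x) := by
      rw [transcendental_iff] at h1 ⊢
      intro h4
      apply h1
      have := (QC Cc).sub_mem hc h4
      rwa [sub_sub_cancel] at this
    refine ⟨t1, ?_, ?_⟩
    · have := h2.neg.add_aeval (C (⟨c, hc⟩ : (QC Cc)))
      rw [aeval_C] at this
      have e : -x + algebraMap (QC Cc) Cc ⟨c, hc⟩ = c - x := by
        change -x + c = c - x
        ring
      rwa [e] at this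
    · have e1 : DegLe (QC Cc) 1 (c - x) x := degLe_one' (C (⟨c, hc⟩ : (QC Cc)) - X) (by
        rw [map_sub, aeval_C, aeval_X]
        change x = c - (c - x)
        ring)
      have := e1.trans t1 h1 h3
      rwa [one_mul] at this

theorem Good.neg {D : ℕ} {u x : Cc} (h : Good D u x) : Good D u (-x) := by
  have := h.const_sub (c := 0) (QC Cc).zero_mem
  rwa [zero_sub] at this

/-- The degree bound for differences. -/
def dd (D : ℕ) : ℕ := (D * D + D * D) * D + D * D + D

theorem le_dd (D : ℕ) : D ≤ dd D := by unfold dd; omega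

theorem Good.sub {D : ℕ} {u x y : Cc} (hu : Transcendental (QC Cc) u) (h1 : Good D u x)
    (h2 : Good D u y) : Good (dd D) u (x - y) := by
  by_cases hx : x ∈ (QC Cc)
  · exact (h2.const_sub hx).mono (le_dd D)
  by_cases hy : y ∈ (QC Cc)
  · have := (h1.const_sub hy).neg
    rw [neg_sub] at this
    exact this.mono (le_dd D)
  by_cases hxy : x - y ∈ (QC Cc)
  · exact Or.inl hxy
  rcases h1 with h1 | ⟨tx, h2', h3⟩
  · exact absurd h1 hx
  rcases h2 with h2 | ⟨ty, h4, h5⟩
  · exact absurd h2 hy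
  right
  have txy := transcendental_iff.2 hxy
  refine ⟨txy, (degLe_sub' hu h2' h4).mono (by unfold dd; omega), ?_⟩
  have a1 : DegLe (QC Cc) (D * D) y x := h5.trans ty hu h2'
  have a2 : DegLe (QC Cc) (D * D) x y := h3.trans tx hu h4
  obtain ⟨P, hP0, hP1, hP2, hP3⟩ := simul y x ty _ _ a1 a2
  have a3 := subst_deg P hP0 _ _ hP1 hP2 hP3
  exact (a3.trans txy ty h5).mono (by unfold dd; omega)

theorem Good.add {D : ℕ} {u x y : Cc} (hu : Transcendental (QC Cc) u) (h1 : Good D u x)
    (h2 : Good D u y) : Good (dd D) u (x + y) := by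
  have := h1.sub hu h2.neg
  rwa [sub_neg_eq_add] at this

theorem Good.zpow {D : ℕ} {v x : Cc} (hv : Transcendental (QC Cc) v) (b : ℤ) (hb : b ≠ 0)
    (htv : Transcendental (QC Cc) (v ^ b)) (h : Good D (v ^ b) x) : Good (D * b.natAbs) v x := by
  have hv0 : v ≠ 0 := by
    rintro rfl
    exact hv isAlgebraic_zero
  have key : DegLe (QC Cc) 1 v (v ^ b) ∧ DegLe (QC Cc) b.natAbs (v ^ b) v := by
    obtain ⟨n, rfl | rfl⟩ := b.eq_nat_or_neg
    · have hn : n ≠ 0 := by
        rintro rfl; exact hb rfl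
      rw [zpow_natCast, Int.natAbs_natCast]
      refine ⟨degLe_one' (X ^ n) (by simp), Y ^ n - C X, ?_, ?_, ?_⟩
      · exact (monic_X_pow_sub_C _ hn).ne_zero
      · rw [natDegree_X_pow_sub_C]
      · simp
    · have hn : n ≠ 0 := by
        rintro rfl; exact hb rfl
      rw [zpow_neg, zpow_natCast, Int.natAbs_neg, Int.natAbs_natCast]
      constructor
      · refine ⟨C (X ^ n) * Y - 1, ?_, ?_, ?_⟩
        · intro h0
          have := congrArg (fun Q => (Q.coeff 0)) h0
          simp at this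
        · refine (natDegree_sub_le _ _).trans ?_
          rw [natDegree_one, max_eq_left (Nat.zero_le _)]
          exact (natDegree_C_mul_le _ _).trans natDegree_X_le
        · simp [hv0]
      · refine ⟨C X * Y ^ n - 1, ?_, ?_, ?_⟩
        · intro h0
          have := congrArg (fun Q => (Q.coeff 0)) h0
          simp [hn.symm] at this
        · refine (natDegree_sub_le _ _).trans ?_
          rw [natDegree_one, max_eq_left (Nat.zero_le _)]
          exact (natDegree_C_mul_le _ _).trans (natDegree_X_pow_le _)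
        · simp [hv0]
  obtain ⟨k1, k2⟩ := key
  have hb1 : 1 ≤ b.natAbs := Int.natAbs_pos.2 hb
  rcases h with hx | ⟨h1, h2, h3⟩
  · exact Or.inl hx
  · right
    refine ⟨h1, ?_, ?_⟩
    · have := k1.trans hv htv h2
      exact this.mono (by nlinarith)
    · exact h3.trans h1 htv k2

/-- An endomorphism which shifts `x` and scales `u` by a number of large order cannot exist. -/
theorem no_shift {x u : Cc} {D : ℕ} (hx : Transcendental (QC Cc) x) (hu0 : u ≠ 0) (h : DegLe (QC Cc) D x u)
    (σ : Cc →ₐ[(QC Cc)] Cc) (c χ : (QC Cc)) (hσx : σ x = x + (c : Cc)) (hσu : σ u = (χ : Cc) * u) (hχ0 : χ ≠ 0)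
    (hχ : ∀ n : ℕ, 0 < n → n ≤ D → χ ^ n ≠ 1) : False := by
  classical
  have hex : ∃ m : ℕ, ∃ P : (QC Cc)[X][Y], P ≠ 0 ∧ P.natDegree = m ∧ aevalAeval x u P = 0 := by
    obtain ⟨P, h1, _, h3⟩ := h
    exact ⟨P.natDegree, P, h1, rfl, h3⟩
  set m := Nat.find hex with hm
  obtain ⟨P, hP0, hPm, hP⟩ := Nat.find_spec hex
  have hmin : ∀ Q : (QC Cc)[X][Y], aevalAeval x u Q = 0 → Q.natDegree < m → Q = 0 := by
    intro Q hQ hd
    by_contra hQ0
    exact Nat.find_min hex hd ⟨Q, hQ0, rfl, hQ⟩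
  have hmD : m ≤ D := by
    obtain ⟨P', h1, h2, h3⟩ := h
    exact (Nat.find_min' hex ⟨P', h1, rfl, h3⟩).trans h2
  set τ : (QC Cc)[X] →+* (QC Cc)[X] := compRingHom (X + C c) with hτ
  have hτlc : ∀ p : (QC Cc)[X], (τ p).leadingCoeff = p.leadingCoeff := by
    intro p
    rw [hτ, coe_compRingHom_apply, leadingCoeff_comp (by rw [natDegree_X_add_C]; exact one_ne_zero)]
    rw [leadingCoeff_X_add_C, one_pow, mul_one]
  set Q : (QC Cc)[X][Y] := (P.map τ).comp (C (C χ) * X) with hQdef
  have hQc : ∀ i, Q.coeff i = τ (P.coeff i) * (C χ) ^ i := by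
    intro i
    rw [hQdef, comp_C_mul_X_coeff, coeff_map]
  have hQ : aevalAeval x u Q = 0 := by
    have e1 : aevalAeval x u Q = aevalAeval (σ x) (σ u) P := by
      rw [aevalAeval_eq_eval₂, aevalAeval_eq_eval₂, hQdef, eval₂_comp, eval₂_map]
      have e2 : eval₂ (aeval x : (QC Cc)[X] →ₐ[(QC Cc)] Cc).toRingHom u (C (C χ) * X) = σ u := by
        rw [eval₂_mul, eval₂_C, eval₂_X, hσu]
        congr 1
        exact aeval_C x χ
      have e3 : ((aeval x : (QC Cc)[X] →ₐ[(QC Cc)] Cc).toRingHom.comp τ) =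
          (aeval (σ x) : (QC Cc)[X] →ₐ[(QC Cc)] Cc).toRingHom := by
        apply RingHom.ext
        intro p
        rw [RingHom.comp_apply, hτ, coe_compRingHom_apply]
        change aeval x (p.comp (X + C c)) = aeval (σ x) p
        rw [aeval_comp, map_add, aeval_X, aeval_C, hσx]
        rfl
      rw [e2, e3]
    have e4 : aevalAeval (σ x) (σ u) P = σ (aevalAeval x u P) := by
      have : (aevalAeval (σ x) (σ u) : (QC Cc)[X][Y] →ₐ[(QC Cc)] Cc) = σ.comp (aevalAeval x u) := by
        ext <;> simp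
      rw [this]; rfl
    rw [e1, e4, hP, map_zero]
  set a : (QC Cc)[X] := C χ ^ m * τ (P.coeff m) with ha
  set R : (QC Cc)[X][Y] := C a * P - C (P.coeff m) * Q with hR
  have hRe : aevalAeval x u R = 0 := by
    have e1 := _root_.map_sub (aevalAeval x u) (C a * P) (C (P.coeff m) * Q)
    have e2 := _root_.map_mul (aevalAeval x u) (C a) P
    have e3 := _root_.map_mul (aevalAeval x u) (C (P.coeff m)) Q
    rw [hR]
    refine e1.trans ?_
    rw [e2, e3, hP, hQ, mul_zero, mul_zero, sub_zero]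
  have hRc : ∀ i, R.coeff i = a * P.coeff i - P.coeff m * (τ (P.coeff i) * (C χ) ^ i) := by
    intro i
    rw [hR, coeff_sub, coeff_C_mul, coeff_C_mul, hQc]
  have hR0 : R = 0 := by
    by_contra hne
    apply hne
    apply hmin R hRe
    have h1 : R.natDegree ≤ m := by
      rw [natDegree_le_iff_coeff_eq_zero]
      intro N hN
      have : P.coeff N = 0 := coeff_eq_zero_of_natDegree_lt (by omega)
      rw [hRc, this, map_zero, mul_zero, zero_mul, mul_zero, sub_zero]
    refine lt_of_le_of_ne h1 ?_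
    intro h2
    apply hne
    rw [← leadingCoeff_eq_zero, leadingCoeff, h2, hRc, ha]
    ring
  have hcoef : ∀ i, i ≠ m → P.coeff i = 0 := by
    intro i hi
    by_cases hlt : i < m
    · by_contra hne
      have h1 := hRc i
      rw [hR0, coeff_zero] at h1
      have h2 : a * P.coeff i = P.coeff m * (τ (P.coeff i) * (C χ) ^ i) := (sub_eq_zero.1 h1.symm)
      have h3 := congrArg leadingCoeff h2
      rw [ha] at h3
      simp only [leadingCoeff_mul, leadingCoeff_pow, leadingCoeff_C, hτlc] at h3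
      have hpm : (P.coeff m).leadingCoeff ≠ 0 := by
        rw [Ne, leadingCoeff_eq_zero]
        have : P.leadingCoeff ≠ 0 := by rwa [Ne, leadingCoeff_eq_zero]
        rwa [leadingCoeff, hPm] at this
      have hpi : (P.coeff i).leadingCoeff ≠ 0 := by rwa [Ne, leadingCoeff_eq_zero]
      have h4 : χ ^ m = χ ^ i := by
        have h5 : ((P.coeff m).leadingCoeff * (P.coeff i).leadingCoeff) * χ ^ m =
            ((P.coeff m).leadingCoeff * (P.coeff i).leadingCoeff) * χ ^ i := by
          linear_combination h3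
        exact mul_left_cancel₀ (mul_ne_zero hpm hpi) h5
      apply hχ (m - i) (by omega) (by omega)
      have h6 : χ ^ i * χ ^ (m - i) = χ ^ i * 1 := by
        rw [← pow_add, Nat.add_sub_cancel' hlt.le, h4, mul_one]
      exact mul_left_cancel₀ (pow_ne_zero _ hχ0) h6
    · exact coeff_eq_zero_of_natDegree_lt (by omega)
  have hPeq : P = C (P.coeff m) * X ^ m := by
    ext1 i
    rw [coeff_C_mul_X_pow]
    split_ifs with h1
    · rw [h1]
    · exact hcoef i h1
  rw [hPeq, map_mul, map_pow, aevalAeval_C, aevalAeval_Y] at hP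
  rcases mul_eq_zero.1 hP with h1 | h1
  · have h2 : P.coeff m = 0 := aeval_injective_of_transcendental hx (by rw [h1, map_zero])
    apply hP0
    rw [hPeq, h2, C_0, zero_mul]
  · exact pow_ne_zero m hu0 h1

/-- Pigeonhole: some bounded power of an endomorphism which fixes `u` fixes `x`. -/
theorem exists_pow_fix {u x : Cc} {D : ℕ} (hu : Transcendental (QC Cc) u) (h : DegLe (QC Cc) D u x)
    (σ : Cc →ₐ[(QC Cc)] Cc) (hσ : σ u = u) : ∃ n : ℕ, 0 < n ∧ n ≤ D ∧ (σ ^ n) x = x := by
  classical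
  obtain ⟨P, h1, h2, h3⟩ := h
  set f : Cc[X] := P.map (aeval u : (QC Cc)[X] →ₐ[(QC Cc)] Cc).toRingHom with hf
  have hf0 : f ≠ 0 := by
    rw [hf, Ne, Polynomial.map_eq_zero_iff (aeval_injective_of_transcendental hu)]
    exact h1
  have hroot : ∀ n : ℕ, (σ ^ n) x ∈ f.roots.toFinset := by
    intro n
    rw [Multiset.mem_toFinset, mem_roots hf0, IsRoot.def, hf, eval_map, ← aevalAeval_eq_eval₂]
    have hσn : (σ ^ n) u = u := by
      induction n with
      | zero => rw [pow_zero]; rfl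
      | succ n ih => rw [pow_succ, AlgHom.mul_apply, hσ, ih]
    have e4 : aevalAeval u ((σ ^ n) x) P = (σ ^ n) (aevalAeval u x P) := by
      have hσn' : (⇑σ)^[n] u = u := by
        rw [← AlgHom.coe_pow]
        exact hσn
      have : (aevalAeval u ((σ ^ n) x) : (QC Cc)[X][Y] →ₐ[(QC Cc)] Cc) = (σ ^ n).comp (aevalAeval u x) := by
        ext <;> simp [hσn']
      rw [this]; rfl
    rw [e4, h3, map_zero]
  have hcard : f.roots.toFinset.card < (Finset.range (D + 1)).card := by
    rw [Finset.card_range]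
    have : f.roots.toFinset.card ≤ D :=
      (Multiset.toFinset_card_le _).trans ((card_roots' f).trans ((natDegree_map_le).trans h2))
    omega
  obtain ⟨a, ha, b, hb, hab, he⟩ := Finset.exists_ne_map_eq_of_card_lt_of_maps_to hcard
    (f := fun n => (σ ^ n) x) (fun n _ => hroot n)
  rw [Finset.mem_range] at ha hb
  have key : ∀ a b : ℕ, a < b → b < D + 1 → (σ ^ a) x = (σ ^ b) x →
      ∃ n : ℕ, 0 < n ∧ n ≤ D ∧ (σ ^ n) x = x := by
    intro a b hab hb he
    refine ⟨b - a, by omega, by omega, ?_⟩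
    have h4 : (σ ^ a) ((σ ^ (b - a)) x) = (σ ^ a) x := by
      rw [← AlgHom.mul_apply, ← pow_add, Nat.add_sub_cancel' hab.le, he]
    exact (σ ^ a).toRingHom.injective h4
  rcases lt_or_gt_of_ne hab with h5 | h5
  · exact key a b h5 hb he
  · exact key b a h5 ha he.symm

end Pool.Agent.Y787.GL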