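import Mathlib

/-!
# Extension of endomorphisms to algebraically closed fields
-/

set_option autoImplicit false

namespace Pool.Agent.Y787.GL

/-- Extension of ring homomorphisms to algebraic extensions. -/
theorem exists_extend {R S M : Type*} [CommRing R] [CommRing S] [IsDomain S] [Field M]
    [IsAlgClosed M] (f : R →+* S) (g : R →+* M) (hf : Function.Injective f)
    (hg : Function.Injective g)
    (halg : ∀ s : S, ∃ p : Polynomial R, p ≠ 0 ∧ p.eval₂ f s = 0) :
    ∃ σ : S →+* M, ∀ r, σ (f r) = g r := by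
  let _ := f.toAlgebra
  let _ := g.toAlgebra
  have : IsDomain R := hf.isDomain f
  have : FaithfulSMul R S := (faithfulSMul_iff_algebraMap_injective R S).2 hf
  have : FaithfulSMul R M := (faithfulSMul_iff_algebraMap_injective R M).2 hg
  have : Algebra.IsAlgebraic R S :=
    ⟨fun s => by obtain ⟨p, h1, h2⟩ := halg s; exact ⟨p, h1, h2⟩⟩
  exact ⟨(IsAlgClosed.lift : S →ₐ[R] M).toRingHom,
    fun r => (IsAlgClosed.lift : S →ₐ[R] M).commutes r⟩

/-- Extension of an endomorphism of a subring to an algebraically closed field. -/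
theorem exists_endo {R C : Type} [CommRing R] [Field C] [IsAlgClosed C] (f : R →+* C)
    (hf : Function.Injective f) (θ : R →+* R) (hθ : Function.Injective θ) :
    ∃ σ : C →+* C, ∀ r, σ (f r) = f (θ r) := by
  let _ := f.toAlgebra
  have : IsDomain R := hf.isDomain f
  have : FaithfulSMul R C := (faithfulSMul_iff_algebraMap_injective R C).2 hf
  obtain ⟨s, hs⟩ := exists_isTranscendenceBasis R C
  have hs1 : AlgebraicIndependent R ((↑) : s → C) := hs.1
  have halg := hs.isAlgebraic
  set A₀ := Algebra.adjoin R (Set.range ((↑) : s → C)) with hA₀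
  set e := hs1.aevalEquiv with he
  set g : A₀ →+* C := ((MvPolynomial.aeval (R := R) ((↑) : s → C)).toRingHom.comp
    (MvPolynomial.map θ)).comp (e.symm : A₀ ≃ₐ[R] MvPolynomial s R).toRingEquiv.toRingHom with hg
  have hginj : Function.Injective g := by
    rw [hg]
    intro a b hab
    apply e.symm.injective
    apply MvPolynomial.map_injective θ hθ
    exact hs1 hab
  obtain ⟨σ, hσ⟩ := exists_extend (A₀.val : A₀ →ₐ[R] C).toRingHom g Subtype.val_injective hginj (by
    intro z
    obtain ⟨p, h1, h2⟩ := halg.isAlgebraic z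
    exact ⟨p, h1, h2⟩)
  refine ⟨σ, fun r => ?_⟩
  have h1 := hσ (algebraMap R A₀ r)
  have h2 : (A₀.val : A₀ →ₐ[R] C).toRingHom (algebraMap R A₀ r) = f r := rfl
  rw [h2] at h1
  rw [h1, hg]
  have h3 : e.symm (algebraMap R A₀ r) = algebraMap R (MvPolynomial s R) r := e.symm.commutes r
  simp only [RingHom.comp_apply]
  have h4 : (e.symm : A₀ ≃ₐ[R] MvPolynomial s R).toRingEquiv.toRingHom (algebraMap R A₀ r) =
    MvPolynomial.C r := h3
  rw [h4, MvPolynomial.map_C]
  have h5 : (MvPolynomial.aeval (R := R) ((↑) : s → C)).toRingHom (MvPolynomial.C (θ r)) =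
    algebraMap R C (θ r) := (MvPolynomial.aeval (R := R) ((↑) : s → C)).commutes (θ r)
  rw [h5]
  rfl

end Pool.Agent.Y787.GL
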