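import Pool.Agent.Y787.GL.Logs
import Pool.Agent.Y787.GL.Deg
import Pool.Agent.Y787.GL.Endo
/-!
# All exponentials simultaneously
-/

set_option autoImplicit false

namespace Pool.Agent.Y787.GL
open Polynomial IntermediateField Module Pool.Agent.W256 Pool.Agent.H297R2
open Pool.Agent.TH519.GL
open Pool.Agent.Y787 (QC mem_QC HypC hyperplane hyperplane' Lt_one baker')



variable {Cc : Type} [Field Cc] [CharZero Cc] [IsAlgClosed Cc] {Lt : Submodule (QC Cc) Cc}
  [HypC Lt]

/-- finite unions of proper subspaces lie on hypersurfaces -/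
theorem exists_avoid {K : Type*} [Field K] {N : ℕ} {ι : Type*} (S : Finset ι)
    (W : ι → Submodule K (Fin N → K)) (hW : ∀ i ∈ S, W i ≠ ⊤) :
    ∃ Δ : MvPolynomial (Fin N) K, Δ ≠ 0 ∧ ∀ b, MvPolynomial.eval b Δ ≠ 0 →
      ∀ i ∈ S, b ∉ W i := by
  classical
  have h : ∀ i, ∃ Δ : MvPolynomial (Fin N) K, Δ ≠ 0 ∧ (i ∈ S → ∀ b, MvPolynomial.eval b Δ ≠ 0 →
      b ∉ W i) := by
    intro i
    by_cases hi : i ∈ S
    · obtain ⟨Δ, h1, h2⟩ := exists_form (W i) (hW i hi)
      exact ⟨Δ, h1, fun _ => h2⟩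
    · exact ⟨1, one_ne_zero, fun h => absurd h hi⟩
  choose Δ h1 h2 using h
  refine ⟨∏ i ∈ S, Δ i, Finset.prod_ne_zero_iff.mpr fun i _ => h1 i, ?_⟩
  intro b hb i hi
  rw [map_prod] at hb
  exact h2 i hi b (Finset.prod_ne_zero_iff.mp hb i hi)

theorem tr_iff {x : Cc} : Transcendental (QC Cc) x ↔ x ∉ (QC Cc) :=
  Pool.Agent.Y787.GL.transcendental_iff

section good

theorem good_smul {D : ℕ} {u x : Cc} (hu : Transcendental (QC Cc) u) (c : (QC Cc)) (h : Good D u x) :
    Good D u (algebraMap (QC Cc) Cc c * x) := by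
  have hmem : ∀ a : (QC Cc), algebraMap (QC Cc) Cc a ∈ (QC Cc) := fun a => a.2
  by_cases hc : c = 0
  · left
    rw [hc, map_zero, zero_mul]
    exact (QC Cc).zero_mem
  have hc' : algebraMap (QC Cc) Cc c ≠ 0 := by simpa using hc
  rcases h with h | ⟨h1, h2, h3⟩
  · left; exact (QC Cc).mul_mem (hmem c) h
  · right
    have t1 : Transcendental (QC Cc) (algebraMap (QC Cc) Cc c * x) := by
      rw [tr_iff] at h1 ⊢
      intro h4
      apply h1
      have := (QC Cc).mul_mem ((QC Cc).inv_mem (hmem c)) h4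
      rwa [inv_mul_cancel_left₀ hc'] at this
    refine ⟨t1, ?_, ?_⟩
    · have e1 : DegLe (QC Cc) 1 x (algebraMap (QC Cc) Cc c * x) := degLe_one' (C c * X) (by
        rw [map_mul, aeval_C, aeval_X])
      have := DegLe.trans hu h1 h2 e1
      rwa [mul_one] at this
    · have e1 : DegLe (QC Cc) 1 (algebraMap (QC Cc) Cc c * x) x := degLe_one' (C c⁻¹ * X) (by
        rw [map_mul, aeval_C, aeval_X, map_inv₀, inv_mul_cancel_left₀ hc'])
      have := DegLe.trans t1 h1 e1 h3
      rwa [one_mul] at this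

theorem good_cmb {N : ℕ} (l : Fin N → Cc) (u : Cc) (hu : Transcendental (QC Cc) u)
    (hl : ∀ j, ∃ D, Good D u (l j)) : ∃ E, ∀ b : Fin N → (QC Cc), Good E u (cmb l b) := by
  classical
  choose D hD using hl
  have key : ∀ s : Finset (Fin N), ∃ E, ∀ b : Fin N → (QC Cc),
      Good E u (∑ j ∈ s, algebraMap (QC Cc) Cc (b j) * l j) := by
    intro s
    induction s using Finset.induction_on with
    | empty => exact ⟨0, fun b => Or.inl (by rw [Finset.sum_empty]; exact (QC Cc).zero_mem)⟩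
    | insert i s his ih =>
      obtain ⟨E, hE⟩ := ih
      refine ⟨Pool.Agent.Y787.GL.dd (max (D i) E), fun b => ?_⟩
      rw [Finset.sum_insert his]
      exact Good.add hu ((good_smul hu (b i) (hD i)).mono (le_max_left _ _))
        ((hE b).mono (le_max_right _ _))
  exact key Finset.univ

end good

theorem cmb_add {N : ℕ} (l : Fin N → Cc) (a b : Fin N → (QC Cc)) :
    cmb l (a + b) = cmb l a + cmb l b := by
  simp only [cmb, Pi.add_apply, map_add, add_mul, Finset.sum_add_distrib]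

theorem cmb_smul {N : ℕ} (l : Fin N → Cc) (a : (QC Cc)) (b : Fin N → (QC Cc)) :
    cmb l (a • b) = algebraMap (QC Cc) Cc a * cmb l b := by
  simp only [cmb, Pi.smul_apply, smul_eq_mul, map_mul, Finset.mul_sum, mul_assoc]

theorem cmb_zero {N : ℕ} (l : Fin N → Cc) : cmb l 0 = 0 := by simp [cmb]

theorem cmb_notMem {N : ℕ} (l : Fin N → Cc) (hlL : ∀ j, l j ∈ Lt)
    (hli : LinearIndependent (QC Cc) (Fin.cons 1 l : Fin (N + 1) → Cc)) (b : Fin N → (QC Cc)) (hb : cmb l b ∈ (QC Cc)) : b = 0 := by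
  have h2 := baker' l hli (-cmb l b) ((mem_QC.mp hb).neg)
    (fun j => (b j : Cc)) (fun j => mem_QC.mp (b j).2) (by
      rw [cmb]
      exact neg_add_cancel _)
  funext j
  exact_mod_cast h2.2 j

/-- the subspace where two combinations agree -/
noncomputable def agree {N : ℕ} (l μ : Fin N → Cc) : Submodule (QC Cc) (Fin N → (QC Cc)) where
  carrier := {b | cmb μ b = cmb l b}
  add_mem' := by
    intro a b ha hb
    change cmb μ (a + b) = cmb l (a + b)
    rw [cmb_add, cmb_add, show cmb μ a = cmb l a from ha, show cmb μ b = cmb l b from hb]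
  zero_mem' := by
    change cmb μ 0 = cmb l 0
    rw [cmb_zero, cmb_zero]
  smul_mem' := by
    intro a b hb
    change cmb μ (a • b) = cmb l (a • b)
    rw [cmb_smul, cmb_smul, show cmb μ b = cmb l b from hb]

theorem agree_ne_top {N : ℕ} {l μ : Fin N → Cc} (h : μ ≠ l) : agree l μ ≠ ⊤ := by
  intro htop
  apply h
  funext j
  have h1 : Pi.single j 1 ∈ agree l μ := by rw [htop]; exact Submodule.mem_top
  have h2 : cmb μ (Pi.single j 1) = cmb l (Pi.single j 1) := h1
  rwa [cmb_single, cmb_single] at h2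

theorem roots_finite (u : Cc) (hu : Transcendental (QC Cc) u) (P : (QC Cc)[X][X]) (hP : P ≠ 0) :
    {y : Cc | aevalAeval u y P = 0}.Finite := by
  classical
  set f : Cc[X] := P.map (aeval u : (QC Cc)[X] →ₐ[(QC Cc)] Cc).toRingHom with hf
  have hf0 : f ≠ 0 := by
    rw [hf, Ne, Polynomial.map_eq_zero_iff (aeval_injective_of_transcendental hu)]
    exact hP
  refine (f.roots.toFinset.finite_toSet).subset ?_
  intro y hy
  rw [Finset.mem_coe, Multiset.mem_toFinset, mem_roots hf0, IsRoot.def, hf, eval_map,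
    ← aevalAeval_eq_eval₂]
  exact hy

theorem pow_scale (σ : Cc →ₐ[(QC Cc)] Cc) {u : Cc} {c : (QC Cc)} (h : σ u = (c : Cc) * u) (n : ℕ) :
    (σ ^ n) u = ((c ^ n : (QC Cc)) : Cc) * u := by
  induction n with
  | zero => rw [pow_zero, pow_zero]; simp
  | succ n ih =>
    rw [pow_succ, AlgHom.mul_apply, h, map_mul, ih]
    have : (σ ^ n) (c : Cc) = (c : Cc) := (σ ^ n).commutes c
    rw [this, pow_succ]
    push_cast
    ring

/-- **Galois step.** An element algebraic over `L` and not in `L` is moved by an endomorphism of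
`Cc` over `L`. -/
theorem exists_move (L : IntermediateField (QC Cc) Cc) (y : Cc) (halg : IsAlgebraic L y) (hy : y ∉ L) :
    ∃ σ : Cc →ₐ[(QC Cc)] Cc, (∀ z ∈ L, σ z = z) ∧ σ y ≠ y := by
  set Ω : IntermediateField L Cc := algebraicClosure L Cc with hΩ
  have hac : IsAlgClosure L Ω := algebraicClosure.isAlgClosure L Cc
  have hch : CharZero L := inferInstance
  have hgal : IsGalois L Ω := IsAlgClosure.isGalois L Ω
  set y' : Ω := ⟨y, mem_algebraicClosure_iff.2 halg⟩ with hy'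
  have h1 : y' ∉ (⊥ : IntermediateField L Ω) := by
    intro h2
    obtain ⟨z, hz⟩ := IntermediateField.mem_bot.1 h2
    apply hy
    have h3 : (z : Cc) = y := congrArg (fun w : Ω => (w : Cc)) hz
    rw [← h3]
    exact z.2
  rw [InfiniteGalois.mem_bot_iff_fixed] at h1
  push Not at h1
  obtain ⟨θ, hθ⟩ := h1
  obtain ⟨σ, hσ⟩ := exists_endo (R := Ω) (C := Cc) (algebraMap Ω Cc) (algebraMap Ω Cc).injective
    (θ : Ω →+* Ω) θ.injective
  have hL : ∀ z (hz : z ∈ L), σ z = z := by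
    intro z hz
    have h2 := hσ (algebraMap L Ω ⟨z, hz⟩)
    have h3 : (θ : Ω →+* Ω) (algebraMap L Ω ⟨z, hz⟩) = algebraMap L Ω ⟨z, hz⟩ := θ.commutes _
    rw [h3] at h2
    exact h2
  refine ⟨{ σ with commutes' := fun c => hL _ (L.algebraMap_mem c) }, hL, ?_⟩
  intro h2
  apply hθ
  apply Subtype.ext
  have h3 := hσ y'
  have h4 : σ y = y := h2
  have h5 : algebraMap Ω Cc y' = y := rfl
  rw [h5, h4] at h3
  exact h3.symm

/-- if all logarithms are algebraic over `K(x)` then for generic combinations `h` and all `t`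
which satisfy `t ^ q = x ^ p`, the degree of `t` over `K(h)` is large -/
theorem line_case {N : ℕ} (hN : 0 < N) (l : Fin N → Cc)
    (hlL : ∀ j, l j ∈ Lt) (hli : LinearIndependent (QC Cc) (Fin.cons 1 l : Fin (N + 1) → Cc)) (x : Cc)
    (hx : Transcendental (QC Cc) x) (hall : ∀ j, IsAlgebraic (QC Cc)⟮x⟯ (l j)) :
    ∃ Δ : MvPolynomial (Fin N) (QC Cc), Δ ≠ 0 ∧ ∀ b : Fin N → (QC Cc), MvPolynomial.eval b Δ ≠ 0 →
      ∀ (p : ℤ) (q : ℕ), p ≠ 0 → 0 < q → ∀ t : Cc, t ^ q = x ^ p →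
        ∀ d, DegLe (QC Cc) d (cmb l b) t → (N + 1) ^ 2 / 4 ≤ d := by
  classical
  have hx0 : x ≠ 0 := by
    rintro rfl
    exact hx isAlgebraic_zero
  have hlt : ∀ j, Transcendental (QC Cc) (l j) := by
    intro j
    refine tr_iff.mpr fun h1 => ?_
    rw [← cmb_single l j] at h1
    have := cmb_notMem l hlL hli _ h1
    have h2 := congrFun this j
    simp at h2
  -- relations
  have hP : ∀ j, ∃ P : (QC Cc)[X][X], P ≠ 0 ∧ aevalAeval x (l j) P = 0 := by
    intro j
    obtain ⟨P, h1, -, h3⟩ := degLe_of_minpoly (hall j) le_rfl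
    exact ⟨P, h1, h3⟩
  choose P hP0 hP using hP
  obtain ⟨E, hE⟩ := good_cmb l x hx (by
    intro j
    refine ⟨max (P j).natDegree (Bivariate.swap (P j)).natDegree, Or.inr ⟨hlt j, ?_, ?_⟩⟩
    · exact ⟨P j, hP0 j, le_max_left _ _, hP j⟩
    · exact ⟨Bivariate.swap (P j), swap_ne_zero (hP0 j), le_max_right _ _,
        by rw [Bivariate.aevalAeval_swap, hP j]⟩)
  -- the finite set of conjugates
  set T : Set (Fin N → Cc) := {μ | ∃ n : ℕ, (0 < n ∧ n ≤ E) ∧ ∃ c : (QC Cc), c ^ n = 1 ∧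
    ∀ j, aevalAeval ((c : Cc) * x) (μ j) (P j) = 0} with hT
  have hTfin : T.Finite := by
    have h1 : T ⊆ ⋃ n ∈ Finset.Icc 1 E, ⋃ c ∈ {c : (QC Cc) | c ^ n = 1},
        Set.pi Set.univ (fun j => {y : Cc | aevalAeval ((c : Cc) * x) y (P j) = 0}) := by
      rintro μ ⟨n, hn, c, hc, h2⟩
      refine Set.mem_biUnion (Finset.mem_coe.mpr (Finset.mem_Icc.mpr hn)) ?_
      exact Set.mem_biUnion (show c ∈ {c : (QC Cc) | c ^ n = 1} from hc) (fun j _ => h2 j)
    refine Set.Finite.subset ?_ h1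
    refine Set.Finite.biUnion (Finset.finite_toSet _) ?_
    intro n hn
    have hn' := Finset.mem_Icc.mp (Finset.mem_coe.mp hn)
    refine Set.Finite.biUnion ?_ ?_
    · have hfin := (nthRoots n (1 : (QC Cc))).toFinset.finite_toSet
      refine hfin.subset ?_
      intro c hc
      rw [Finset.mem_coe, Multiset.mem_toFinset, mem_nthRoots hn'.1]
      exact hc
    · intro c hc
      refine Set.Finite.pi fun j => ?_
      apply roots_finite _ _ _ (hP0 j)
      rw [tr_iff] at hx ⊢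
      intro h3
      have hc0 : c ≠ 0 := by
        rintro rfl
        have : (0 : (QC Cc)) ^ n = 1 := hc
        rw [zero_pow (by omega)] at this
        exact zero_ne_one this
      have hc1 : (c : Cc) ≠ 0 := by exact_mod_cast hc0
      apply hx
      have := (QC Cc).mul_mem ((QC Cc).inv_mem c.2) h3
      rwa [inv_mul_cancel_left₀ hc1] at this
  obtain ⟨Δ₂, hΔ₂0, hΔ₂⟩ := exists_avoid (hTfin.toFinset.erase l) (fun μ => agree l μ) (by
    intro μ hμ
    exact agree_ne_top (Finset.ne_of_mem_erase hμ))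
  set y₀ := l ⟨0, hN⟩ with hy₀
  obtain ⟨Δ₁, hΔ₁0, hΔ₁⟩ := generic_degree l hlL hli y₀ (hlt _)
  refine ⟨Δ₁ * Δ₂, mul_ne_zero hΔ₁0 hΔ₂0, ?_⟩
  intro b hb p q hp hq t ht d hd
  rw [map_mul] at hb
  have hb1 := left_ne_zero_of_mul hb
  have hb2 := right_ne_zero_of_mul hb
  set h := cmb l b with hh
  have hc1 : 1 ≤ (N + 1) ^ 2 / 4 := by
    have h1 : 4 ≤ (N + 1) ^ 2 := by nlinarith
    omega
  have hht : Transcendental (QC Cc) h := by
    rw [tr_iff]
    intro h1
    have hb0 := cmb_notMem l hlL hli b h1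
    have h2 := hΔ₁ b hb1 0 ⟨C X, by
      rw [Ne, C_eq_zero]
      exact X_ne_zero, by simp, by
      rw [aevalAeval_C, aeval_X, hb0, cmb_zero]⟩
    omega
  apply hΔ₁ b hb1
  -- the first logarithm is in `K(h, t)`
  obtain ⟨halgt, hdt⟩ := hd.minpoly_le hht (QC Cc)⟮h⟯ (AdjoinSimple.gen (QC Cc) h)
    (AdjoinSimple.algebraMap_gen (QC Cc) h)
  have hmem : y₀ ∈ (QC Cc)⟮h⟯⟮t⟯ := by
    by_contra hnot
    set L : IntermediateField (QC Cc) Cc := ((QC Cc)⟮h⟯⟮t⟯).restrictScalars (QC Cc) with hL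
    have hnotL : y₀ ∉ L := hnot
    have htL : t ∈ L := mem_adjoin_simple_self _ t
    have hhL : h ∈ L := by
      have : algebraMap (QC Cc)⟮h⟯ Cc (AdjoinSimple.gen (QC Cc) h) ∈ (QC Cc)⟮h⟯⟮t⟯ :=
        IntermediateField.algebraMap_mem _ _
      rwa [AdjoinSimple.algebraMap_gen] at this
    -- `x` is algebraic over `L`
    have hxL : IsAlgebraic L x := by
      have h1 : x ^ p ∈ L := by
        rw [← ht]
        exact pow_mem htL q
      have h2 : x ^ p.natAbs ∈ L := by
        rcases Int.natAbs_eq p with h3 | h3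
        · rw [h3, zpow_natCast] at h1
          exact h1
        · rw [h3, zpow_neg, zpow_natCast] at h1
          have := L.inv_mem h1
          rwa [inv_inv] at this
      exact IsAlgebraic.of_pow (Int.natAbs_pos.mpr hp)
        (isAlgebraic_algebraMap (⟨_, h2⟩ : L))
    have hlL : IsAlgebraic L y₀ := by
      set Ω : IntermediateField L Cc := algebraicClosure L Cc with hΩ
      have : Algebra.IsAlgebraic L Ω := algebraicClosure.isAlgebraic L Cc
      have hst : IsScalarTower (QC Cc) Ω Cc := IsScalarTower.of_algebraMap_eq (fun _ => rfl)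
      have h1 : DegLe (QC Cc) (P ⟨0, hN⟩).natDegree x y₀ := ⟨_, hP0 _, le_rfl, hP _⟩
      obtain ⟨h2, -⟩ := h1.minpoly_le hx Ω ⟨x, mem_algebraicClosure_iff.2 hxL⟩ rfl
      exact h2.restrictScalars L
    obtain ⟨σ, hσL, hσ⟩ := exists_move L y₀ hlL hnotL
    have hσt : σ t = t := hσL t htL
    have hσh : σ h = h := hσL h hhL
    have hσx0 : σ x ≠ 0 := (map_ne_zero σ).mpr hx0
    have hζp : (σ x / x) ^ p = 1 := by
      have h1 := congrArg σ ht
      rw [map_pow, hσt, ht, map_zpow₀] at h1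
      rw [div_zpow, ← h1, div_self (zpow_ne_zero p hx0)]
    have hζ : (σ x / x) ^ p.natAbs = 1 := by
      rcases Int.natAbs_eq p with h3 | h3
      · rw [h3, zpow_natCast] at hζp
        exact hζp
      · rw [h3, zpow_neg, zpow_natCast] at hζp
        exact inv_eq_one.mp hζp
    have hζalg : IsAlgebraic ℚ (σ x / x) := IsAlgebraic.of_pow (Int.natAbs_pos.mpr hp) (by
      rw [hζ]; exact isAlgebraic_one)
    set c : (QC Cc) := ⟨σ x / x, mem_QC.mpr hζalg⟩ with hc
    have hσx : σ x = (c : Cc) * x := by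
      change σ x = σ x / x * x
      rw [div_mul_cancel₀ _ hx0]
    have hEx : DegLe (QC Cc) E h x := by
      rcases hE b with h1 | ⟨_, _, h3⟩
      · exact absurd h1 (tr_iff.mp hht)
      · exact h3
    obtain ⟨n, hn0, hnE, hn⟩ := exists_pow_fix hht hEx σ hσh
    rw [pow_scale σ hσx n] at hn
    have hcn : c ^ n = 1 := by
      apply Subtype.ext
      have h1 : ((c ^ n : (QC Cc)) : Cc) * x = 1 * x := by rw [hn, one_mul]
      exact mul_right_cancel₀ hx0 h1
    set μ : Fin N → Cc := fun j => σ (l j) with hμ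
    have hμT : μ ∈ T := by
      refine ⟨n, ⟨hn0, hnE⟩, c, hcn, ?_⟩
      intro j
      rw [← hσx, aevalAeval_map, hP j, map_zero]
    have hμl : μ ≠ l := by
      intro h1
      exact hσ (congrFun h1 ⟨0, hN⟩)
    refine hΔ₂ b hb2 μ (Finset.mem_erase.mpr ⟨hμl, hTfin.mem_toFinset.mpr hμT⟩) ?_
    change cmb μ b = cmb l b
    rw [← hh, ← hσh, hh, cmb, cmb, map_sum]
    refine Finset.sum_congr rfl fun j _ => ?_
    rw [map_mul, AlgHom.commutes]
  -- degrees
  have hfd : FiniteDimensional (QC Cc)⟮h⟯ (QC Cc)⟮h⟯⟮t⟯ := adjoin.finiteDimensional halgt.isIntegral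
  set z : (QC Cc)⟮h⟯⟮t⟯ := ⟨y₀, hmem⟩ with hz
  have hzy : algebraMap (QC Cc)⟮h⟯⟮t⟯ Cc z = y₀ := rfl
  have hint : IsIntegral (QC Cc)⟮h⟯ z := Algebra.IsIntegral.isIntegral z
  have hmin : minpoly (QC Cc)⟮h⟯ y₀ = minpoly (QC Cc)⟮h⟯ z := by
    rw [← hzy]
    exact minpoly.algebraMap_eq (algebraMap (QC Cc)⟮h⟯⟮t⟯ Cc).injective z
  apply degLe_of_minpoly
  · rw [← hzy]
    exact hint.isAlgebraic.algebraMap
  · rw [hmin]
    refine (minpoly.natDegree_le z).trans ?_
    rw [adjoin.finrank halgt.isIntegral]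
    exact hdt

end Pool.Agent.Y787.GL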