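import Pool.Agent.TH519.GL.U1
import Pool.Agent.Y787.GL.Uni
import Mathlib.Order.Filter.FilterProduct
/-!
# Derivations on ultrapowers
-/

set_option autoImplicit false

namespace Pool.Agent.Y787.GL
open Filter
open Pool.Agent.TH519.GL
open Pool.Agent.Y787 (QC mem_QC HypC hyperplane hyperplane' Lt_one baker')

variable {Cc : Type} [Field Cc] [CharZero Cc] [IsAlgClosed Cc] {Lt : Submodule (QC Cc) Cc}
  [HypC Lt]

variable {ι : Type}

/-- the ring homomorphism from sequences to germs -/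
noncomputable def gh (𝒰 : Ultrafilter ι) (R : Type) [Field R] :
    (ι → R) →+* Germ (𝒰 : Filter ι) R := Germ.coeRingHom _

theorem gh_eq (𝒰 : Ultrafilter ι) {R : Type} [Field R] (f g : ι → R) :
    gh 𝒰 R f = gh 𝒰 R g ↔ ∀ᶠ b in (𝒰 : Filter ι), f b = g b := Germ.coe_eq

theorem gh_eq_zero (𝒰 : Ultrafilter ι) {R : Type} [Field R] (f : ι → R) :
    gh 𝒰 R f = 0 ↔ ∀ᶠ b in (𝒰 : Filter ι), f b = 0 := by
  rw [← map_zero (gh 𝒰 R), gh_eq]
  rfl

theorem gh_surj (𝒰 : Ultrafilter ι) (R : Type) [Field R] : Function.Surjective (gh 𝒰 R) := by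
  intro z
  induction z using Germ.inductionOn with
  | _ f => exact ⟨f, rfl⟩

/-- a sequence of elements of `(QC Cc)` as a sequence of complex numbers -/
noncomputable def up (a : ι → (QC Cc)) : ι → Cc := fun b => algebraMap (QC Cc) Cc (a b)

/-- ring homomorphisms act on germs -/
noncomputable def germMap (𝒰 : Ultrafilter ι) {R S : Type} [Field R] [Field S] (f : R →+* S) :
    Germ (𝒰 : Filter ι) R →+* Germ (𝒰 : Filter ι) S where
  toFun := Germ.map f
  map_one' := by
    change Germ.map f ((1 : ι → R) : Germ (𝒰 : Filter ι) R) = ((1 : ι → S) : Germ (𝒰 : Filter ι) S)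
    rw [Germ.map_coe]
    congr 1
    funext b
    simp
  map_zero' := by
    change Germ.map f ((0 : ι → R) : Germ (𝒰 : Filter ι) R) = ((0 : ι → S) : Germ (𝒰 : Filter ι) S)
    rw [Germ.map_coe]
    congr 1
    funext b
    simp
  map_mul' x y := by
    induction x, y using Germ.inductionOn₂ with
    | _ x y =>
      rw [← Germ.coe_mul, Germ.map_coe, Germ.map_coe, Germ.map_coe, ← Germ.coe_mul]
      congr 1
      funext b
      simp
  map_add' x y := by
    induction x, y using Germ.inductionOn₂ with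
    | _ x y =>
      rw [← Germ.coe_add, Germ.map_coe, Germ.map_coe, Germ.map_coe, ← Germ.coe_add]
      congr 1
      funext b
      simp

theorem germMap_gh (𝒰 : Ultrafilter ι) {R S : Type} [Field R] [Field S] (f : R →+* S)
    (a : ι → R) : germMap 𝒰 f (gh 𝒰 R a) = gh 𝒰 S (fun b => f (a b)) := rfl

/-- **Derivations on ultrapowers.** -/
theorem exists_ultra_der {N : ℕ} (𝒰 : Ultrafilter (Fin N → (QC Cc)))
    (hgen : ∀ Δ : MvPolynomial (Fin N) (QC Cc), Δ ≠ 0 →
      ∀ᶠ b in (𝒰 : Filter (Fin N → (QC Cc))), MvPolynomial.eval b Δ ≠ 0) (k : Fin N) :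
    ∃ D : Derivation ℤ (Germ (𝒰 : Filter (Fin N → (QC Cc))) Cc) (Germ (𝒰 : Filter (Fin N → (QC Cc))) Cc),
      (∀ a : (Fin N → (QC Cc)) → (QC Cc), ∃ a' : (Fin N → (QC Cc)) → (QC Cc),
        D (gh 𝒰 Cc (up a)) = gh 𝒰 Cc (up a')) ∧
      (∀ z : Cc, D (gh 𝒰 Cc (fun _ => z)) = 0) ∧
      ∀ m, D (gh 𝒰 Cc (up fun b => b m)) = if m = k then 1 else 0 := by
  classical
  set cQ : (QC Cc) →+* Germ (𝒰 : Filter (Fin N → (QC Cc))) (QC Cc) :=
    (gh 𝒰 (QC Cc)).comp (Pi.constRingHom (Fin N → (QC Cc)) (QC Cc)) with hcQ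
  set cC : Cc →+* Germ (𝒰 : Filter (Fin N → (QC Cc))) Cc :=
    (gh 𝒰 Cc).comp (Pi.constRingHom (Fin N → (QC Cc)) Cc) with hcC
  have hch1 : CharZero (Germ (𝒰 : Filter (Fin N → (QC Cc))) (QC Cc)) :=
    charZero_of_injective_ringHom cQ.injective
  have hch2 : CharZero (Germ (𝒰 : Filter (Fin N → (QC Cc))) Cc) :=
    charZero_of_injective_ringHom cC.injective
  set b' : Fin N → Germ (𝒰 : Filter (Fin N → (QC Cc))) (QC Cc) := fun m => gh 𝒰 (QC Cc) (fun b => b m) with hb'
  have hinj : Function.Injective (MvPolynomial.eval₂Hom cQ b') := by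
    rw [injective_iff_map_eq_zero]
    intro Δ hΔ
    by_contra h0
    have h1 : MvPolynomial.eval₂Hom cQ b' =
        (gh 𝒰 (QC Cc)).comp (RingHom.pi fun b : Fin N → (QC Cc) => MvPolynomial.eval b) := by
      apply MvPolynomial.ringHom_ext
      · intro r
        rw [MvPolynomial.coe_eval₂Hom, MvPolynomial.eval₂_C]
        change gh 𝒰 (QC Cc) (fun _ => r) = gh 𝒰 (QC Cc) (fun b => MvPolynomial.eval b (MvPolynomial.C r))
        simp only [MvPolynomial.eval_C]
      · intro m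
        rw [MvPolynomial.coe_eval₂Hom, MvPolynomial.eval₂_X]
        change gh 𝒰 (QC Cc) (fun b => b m) = gh 𝒰 (QC Cc) (fun b => MvPolynomial.eval b (MvPolynomial.X m))
        simp only [MvPolynomial.eval_X]
    rw [h1, RingHom.comp_apply, gh_eq_zero] at hΔ
    obtain ⟨b, hb1, hb2⟩ := (hΔ.and (hgen Δ h0)).exists
    exact hb2 hb1
  obtain ⟨d, hd1, hd2⟩ := exists_partial cQ b' hinj k
  obtain ⟨D, hD1, hD2⟩ := exists_ext_der (C := Cc) cQ (germMap 𝒰 (algebraMap (QC Cc) Cc)) cC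
    (fun a => rfl) (by
      intro J s z c hz hsum m hm
      choose c' hc' using fun m => gh_surj 𝒰 (QC Cc) (c m)
      have h1 : ∑ m ∈ s, germMap 𝒰 (algebraMap (QC Cc) Cc) (c m) * cC (z m) =
          gh 𝒰 Cc (∑ m ∈ s, (up (c' m)) * fun _ => z m) := by
        rw [map_sum]
        refine Finset.sum_congr rfl fun m _ => ?_
        rw [map_mul, ← hc' m, germMap_gh]
        rfl
      rw [h1, gh_eq_zero] at hsum
      rw [← hc' m, gh_eq_zero]
      refine hsum.mono fun b hb => ?_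
      rw [Finset.sum_apply] at hb
      have h2 : ∑ m ∈ s, c' m b • z m = 0 := by
        rw [← hb]
        refine Finset.sum_congr rfl fun m _ => ?_
        rw [Algebra.smul_def]
        rfl
      exact linearIndependent_iff'.1 hz s (fun m => c' m b) h2 m hm) d hd1
  refine ⟨D, fun a => ?_, fun z => hD2 z, fun m => ?_⟩
  · obtain ⟨a', ha'⟩ := gh_surj 𝒰 (QC Cc) (d (gh 𝒰 (QC Cc) a))
    refine ⟨a', ?_⟩
    have h1 := hD1 (gh 𝒰 (QC Cc) a)
    rw [← ha', germMap_gh, germMap_gh] at h1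
    exact h1
  · have h1 := hD1 (b' m)
    rw [hd2 m] at h1
    rw [hb'] at h1
    simp only [germMap_gh] at h1
    rw [apply_ite (germMap 𝒰 (algebraMap (QC Cc) Cc)), map_one, map_zero] at h1
    exact h1

end Pool.Agent.Y787.GL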