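import Pool.Agent.W256.Curve5
import Pool.Agent.W256.Curve6
import Pool.Agent.Y787.Base
/-!
# Fields of transcendence degree one: the degrees of independent linear forms in logarithms
-/

set_option autoImplicit false

namespace Pool.Agent.Y787.GL
open Polynomial IntermediateField Module Pool.Agent.W256
open scoped IntermediateField.algebraAdjoinAdjoin
open Pool.Agent.Y787 (QC mem_QC HypC hyperplane hyperplane' Lt_one baker')

variable {Cc : Type} [Field Cc] [CharZero Cc] [IsAlgClosed Cc] {Lt : Submodule (QC Cc) Cc}
  [HypC Lt]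


/-- **Product inequality.** For finite dimensional spaces `X ⊆ Cc`, `W ⊆ Lt` over the algebraic
numbers, `dim X * dim W ≤ dim (X W) + dim X (dim X - 1)`. -/
theorem product_le (X W Y : Submodule (QC Cc) Cc) [FiniteDimensional (QC Cc) X] [FiniteDimensional (QC Cc) W]
    [FiniteDimensional (QC Cc) Y] (hW : W ≤ Lt) (hY : ∀ x ∈ X, ∀ w ∈ W, x * w ∈ Y) :
    finrank (QC Cc) X * finrank (QC Cc) W ≤ finrank (QC Cc) Y + finrank (QC Cc) X * (finrank (QC Cc) X - 1) := by
  classical
  set h := finrank (QC Cc) X with hh
  set r := finrank (QC Cc) W with hr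
  let x : Fin h → Cc := fun i => ((Module.finBasis (QC Cc) X i : X) : Cc)
  let w : Fin r → Cc := fun j => ((Module.finBasis (QC Cc) W j : W) : Cc)
  have hxm : ∀ i, x i ∈ X := fun i => (Module.finBasis (QC Cc) X i).2
  have hwm : ∀ j, w j ∈ W := fun j => (Module.finBasis (QC Cc) W j).2
  have hx : LinearIndependent (QC Cc) x :=
    (Module.finBasis (QC Cc) X).linearIndependent.map' X.subtype X.ker_subtype
  have hw : LinearIndependent (QC Cc) w :=
    (Module.finBasis (QC Cc) W).linearIndependent.map' W.subtype W.ker_subtype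
  let φ : (Fin h × Fin r → (QC Cc)) →ₗ[(QC Cc)] Y :=
    { toFun := fun c => ⟨∑ p, c p • (x p.1 * w p.2), by
        apply Submodule.sum_mem
        intro p _
        exact Y.smul_mem _ (hY _ (hxm _) _ (hwm _))⟩
      map_add' := by
        intro a b
        apply Subtype.ext
        simp only [Pi.add_apply, add_smul, Finset.sum_add_distrib, Submodule.coe_add]
      map_smul' := by
        intro c a
        apply Subtype.ext
        simp only [Pi.smul_apply, smul_eq_mul, mul_smul, Finset.smul_sum, RingHom.id_apply,
          Submodule.coe_smul] }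
  have hφ : ∀ c, ((φ c : Y) : Cc) = ∑ p, c p • (x p.1 * w p.2) := fun c => rfl
  have h1 := LinearMap.finrank_range_add_finrank_ker φ
  rw [Module.finrank_fintype_fun_eq_card, Fintype.card_prod, Fintype.card_fin, Fintype.card_fin]
    at h1
  have h2 : finrank (QC Cc) (LinearMap.range φ) ≤ finrank (QC Cc) Y := Submodule.finrank_le _
  have h3 : finrank (QC Cc) (LinearMap.ker φ) ≤ h * (h - 1) := by
    let B := Module.finBasis (QC Cc) (LinearMap.ker φ)
    refine hyperplane (Lt := Lt) h _ x (fun i m => ∑ j, (B m : Fin h × Fin r → (QC Cc)) (i, j) • w j) hx ?_ ?_ ?_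
    · intro i m
      apply Submodule.sum_mem
      intro j _
      exact Lt.smul_mem _ (hW (hwm j))
    · intro m
      have h4 : ((φ (B m : Fin h × Fin r → (QC Cc)) : Y) : Cc) = 0 := by
        have := (B m).2
        rw [LinearMap.mem_ker] at this
        rw [this]; rfl
      rw [hφ, Fintype.sum_prod_type] at h4
      rw [← h4]
      apply Finset.sum_congr rfl
      intro i _
      rw [Finset.mul_sum]
      apply Finset.sum_congr rfl
      intro j _
      rw [mul_smul_comm]
    · rw [Fintype.linearIndependent_iff]
      intro b hb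
      have h5 : ∀ i j, ∑ m, b m * (B m : Fin h × Fin r → (QC Cc)) (i, j) = 0 := by
        intro i
        have h6 := congrFun hb i
        rw [Finset.sum_apply] at h6
        simp only [Pi.smul_apply, Pi.zero_apply, Finset.smul_sum, smul_smul] at h6
        rw [Finset.sum_comm] at h6
        simp only [← Finset.sum_smul] at h6
        exact Fintype.linearIndependent_iff.mp hw _ h6
      have h7 : ∑ m, b m • B m = 0 := by
        apply Subtype.ext
        rw [Submodule.coe_sum]
        funext p
        obtain ⟨i, j⟩ := p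
        rw [Finset.sum_apply]
        exact h5 i j
      exact Fintype.linearIndependent_iff.mp B.linearIndependent b h7
  omega

/-- growth of the powers of a space of linear forms in logarithms -/
theorem pow_growth (V : Submodule (QC Cc) Cc) [FiniteDimensional (QC Cc) V] (hV : V ≤ Lt)
    (h1 : (1 : Cc) ∈ V) (m : ℕ) (hm : 1 ≤ m) :
    finrank (QC Cc) (V ^ m : Submodule (QC Cc) Cc) + finrank (QC Cc) V ^ 2 / 4 ≤
      finrank (QC Cc) (V ^ (m + 1) : Submodule (QC Cc) Cc) := by
  have hac : IsAlgClosed (QC Cc) := (algebraicClosure.isAlgClosure ℚ Cc).isAlgClosed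
  have hfd : ∀ k, FiniteDimensional (QC Cc) (V ^ k : Submodule (QC Cc) Cc) := fun k =>
    Module.Finite.iff_fg.mpr (Submodule.FG.pow (Module.Finite.iff_fg.mp inferInstance) k)
  have := hfd m
  have := hfd (m + 1)
  have hle : V ≤ V ^ m := by
    obtain ⟨k, rfl⟩ : ∃ k, m = k + 1 := ⟨m - 1, by omega⟩
    have h2 : (1 : Submodule (QC Cc) Cc) ≤ V ^ k := by
      rw [Submodule.one_le]
      clear hm
      have : ∀ j, (1 : Cc) ∈ V ^ j := by
        intro j
        induction j with
        | zero => rw [pow_zero]; exact Submodule.one_le.mp le_rfl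
        | succ j ih =>
          rw [pow_succ]
          have := Submodule.mul_mem_mul ih h1
          rwa [mul_one] at this
      exact this k
    calc V = 1 * V := (one_mul V).symm
      _ ≤ V ^ k * V := mul_le_mul' h2 le_rfl
      _ = V ^ (k + 1) := (pow_succ V k).symm
  have hfr := Submodule.finrank_mono hle
  have hV0 : V ≠ ⊥ := by
    rintro rfl
    exact one_ne_zero ((Submodule.mem_bot (QC Cc)).mp h1)
  have key := growth_of (V ^ m) V hV0 (finrank (QC Cc) V / 2) (by omega) (by
    intro Y hYX hYs
    have : FiniteDimensional (QC Cc) Y := Submodule.finiteDimensional_of_le hYX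
    have : FiniteDimensional (QC Cc) (Y * V : Submodule (QC Cc) Cc) :=
      Module.Finite.iff_fg.mpr (Submodule.FG.mul (Module.Finite.iff_fg.mp inferInstance)
        (Module.Finite.iff_fg.mp inferInstance))
    have h := product_le (Lt := Lt) Y V (Y * V) hV
      (fun x hx w hw => Submodule.mul_mem_mul hx hw)
    rwa [hYs] at h)
  rw [← pow_succ] at key
  have h3 := half_mul (finrank (QC Cc) V)
  omega

/-- **Degrees of linear forms in logarithms.** -/
theorem degrees_of_forms (F : IntermediateField (QC Cc) Cc) (N : ℕ) (x : Fin N → F)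
    (hx : ∀ i, (x i : Cc) ∈ Lt) (hli : LinearIndependent (QC Cc) (Fin.cons 1 x : Fin (N + 1) → F))
    (hfin : ∀ i, FiniteDimensional (adjoin (QC Cc) {x i}) F) :
    (N + 1) ^ 2 / 4 ≤ ∑ i, finrank (adjoin (QC Cc) {x i}) F := by
  classical
  have hac : IsAlgClosed (QC Cc) := (algebraicClosure.isAlgClosure ℚ Cc).isAlgClosed
  rcases N with _ | N
  · simp
  have hcons : Set.range (Fin.cons 1 x : Fin (N + 1 + 1) → F) = {1} ∪ Set.range x := by
    rw [Fin.range_cons, Set.singleton_union]
  refine sum_degrees_ge x hfin 0 ?_ _ ?_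
  · rintro ⟨c, hc⟩
    obtain ⟨h1, h2⟩ := linearIndependent_finCons.mp hli
    have hc0 : c ≠ 0 := by
      rintro rfl
      rw [map_zero] at hc
      exact h1.ne_zero 0 hc
    apply h2
    have h3 : (1 : F) = c⁻¹ • x 0 := by
      rw [hc, Algebra.smul_def, ← map_mul, inv_mul_cancel₀ hc0, map_one]
    rw [h3]
    exact Submodule.smul_mem _ _ (Submodule.subset_span ⟨0, rfl⟩)
  · intro m hm
    set V : Submodule (QC Cc) F := Submodule.span (QC Cc) ({1} ∪ Set.range x) with hV
    have hVr : finrank (QC Cc) V = N + 1 + 1 := by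
      rw [hV, ← hcons, finrank_span_eq_card hli, Fintype.card_fin]
    have hVfd : FiniteDimensional (QC Cc) V := FiniteDimensional.span_of_finite (QC Cc)
      ((Set.finite_singleton _).union (Set.finite_range x))
    have hinj : Function.Injective F.val.toLinearMap := Subtype.val_injective
    have hmap : ∀ W : Submodule (QC Cc) F, finrank (QC Cc) (W.map F.val.toLinearMap) = finrank (QC Cc) W :=
      fun W => (Submodule.equivMapOfInjective F.val.toLinearMap hinj W).finrank_eq.symm
    have hpow : ∀ k, (V ^ k).map F.val.toLinearMap = (V.map F.val.toLinearMap) ^ k := by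
      intro k
      exact Submodule.map_pow V F.val k
    have h1 := pow_growth (Lt := Lt) (V.map F.val.toLinearMap) (by
      rw [hV, Submodule.map_span, Submodule.span_le]
      rintro _ ⟨y, hy | ⟨i, rfl⟩, rfl⟩
      · rw [Set.mem_singleton_iff] at hy
        subst hy
        exact Lt_one
      · exact hx i) ⟨1, Submodule.subset_span (Or.inl rfl), rfl⟩ m hm
    rw [← hpow, ← hpow, hmap, hmap, hmap, hVr] at h1
    exact h1

end Pool.Agent.Y787.GL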