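import Pool.Agent.TH519.GL.Main
import Pool.Agent.Y787.GL.Curve6
/-!
# Degrees over the field generated by a generic combination of logarithms: the theorem
-/

set_option autoImplicit false

namespace Pool.Agent.Y787.GL
open Polynomial IntermediateField Module Pool.Agent.W256 Pool.Agent.H297R2
open Pool.Agent.TH519.GL
open Pool.Agent.Y787 (QC mem_QC HypC hyperplane hyperplane' Lt_one baker')

variable {Cc : Type} [Field Cc] [CharZero Cc] [IsAlgClosed Cc] {Lt : Submodule (QC Cc) Cc}
  [HypC Lt]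

/-- proper subspaces lie on hyperplanes -/
theorem exists_form {K : Type*} [Field K] {N : ℕ} (W : Submodule K (Fin N → K)) (hW : W ≠ ⊤) :
    ∃ Δ : MvPolynomial (Fin N) K, Δ ≠ 0 ∧ ∀ b, MvPolynomial.eval b Δ ≠ 0 → b ∉ W := by
  classical
  obtain ⟨b₀, hb₀⟩ : ∃ b₀, b₀ ∉ W := by
    by_contra h
    push Not at h
    exact hW (eq_top_iff.mpr fun b _ => h b)
  obtain ⟨f, hf0, hf⟩ := Submodule.exists_le_ker_of_notMem (p := W) (v := b₀) hb₀
  have hfe : ∀ b, MvPolynomial.eval b
      (∑ j, MvPolynomial.C (f (Pi.single j 1)) * MvPolynomial.X j) = f b := by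
    intro b
    rw [map_sum]
    conv_rhs => rw [pi_eq_sum_univ' b, map_sum]
    refine Finset.sum_congr rfl fun j _ => ?_
    rw [map_smul]
    simp only [map_mul, MvPolynomial.eval_C, MvPolynomial.eval_X, smul_eq_mul]
    rw [mul_comm]
  refine ⟨∑ j, MvPolynomial.C (f (Pi.single j 1)) * MvPolynomial.X j, ?_, ?_⟩
  · intro h0
    apply hf0
    rw [← hfe b₀, h0, map_zero]
  · intro b hb hbW
    rw [hfe] at hb
    exact hb (hf hbW)

/-- the combination -/
noncomputable def cmb {N : ℕ} (l : Fin N → Cc) (b : Fin N → (QC Cc)) : Cc :=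
  ∑ j, algebraMap (QC Cc) Cc (b j) * l j

theorem cmb_single {N : ℕ} (l : Fin N → Cc) (j : Fin N) : cmb l (Pi.single j 1) = l j := by
  rw [cmb, Finset.sum_eq_single j]
  · simp
  · intro i _ hi
    rw [Pi.single_eq_of_ne hi, map_zero, zero_mul]
  · intro h0; exact absurd (Finset.mem_univ j) h0

/-- `b` for which the combination is algebraic over `K(t)` -/
noncomputable def algSub {N : ℕ} (l : Fin N → Cc) (t : Cc) : Submodule (QC Cc) (Fin N → (QC Cc)) where
  carrier := {b | IsAlgebraic (QC Cc)⟮t⟯ (cmb l b)}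
  add_mem' := by
    intro a b ha hb
    have h1 : cmb l (a + b) = cmb l a + cmb l b := by
      simp only [cmb, Pi.add_apply, map_add, add_mul, Finset.sum_add_distrib]
    change IsAlgebraic (QC Cc)⟮t⟯ (cmb l (a + b))
    rw [h1]
    exact IsAlgebraic.add ha hb
  zero_mem' := by
    have h1 : cmb l 0 = 0 := by simp [cmb]
    change IsAlgebraic (QC Cc)⟮t⟯ (cmb l 0)
    rw [h1]
    exact isAlgebraic_zero
  smul_mem' := by
    intro a b hb
    have h1 : cmb l (a • b) = algebraMap (QC Cc)⟮t⟯ Cc (algebraMap (QC Cc) (QC Cc)⟮t⟯ a) * cmb l b := by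
      rw [← IsScalarTower.algebraMap_apply]
      simp only [cmb, Pi.smul_apply, smul_eq_mul, map_mul, Finset.mul_sum, mul_assoc]
    change IsAlgebraic (QC Cc)⟮t⟯ (cmb l (a • b))
    rw [h1]
    exact IsAlgebraic.mul (isAlgebraic_algebraMap _) hb

theorem mem_algSub {N : ℕ} (l : Fin N → Cc) (t : Cc) (b : Fin N → (QC Cc)) :
    b ∈ algSub l t ↔ IsAlgebraic (QC Cc)⟮t⟯ (cmb l b) := Iff.rfl

/-- if all logarithms are algebraic over `K(t)`: a good combination and a bound for the degrees
over `K(t)` of all combinations -/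
theorem exists_good_of_alg {N : ℕ} (l : Fin N → Cc) (hlL : ∀ j, l j ∈ Lt)
    (hli : LinearIndependent (QC Cc) (Fin.cons 1 l : Fin (N + 1) → Cc)) (t : Cc) (ht : Transcendental (QC Cc) t)
    (hall : ∀ j, IsAlgebraic (QC Cc)⟮t⟯ (l j)) :
    (∃ b : Fin N → (QC Cc), ∀ d, DegLe (QC Cc) d (cmb l b) t → (N + 1) ^ 2 / 4 ≤ d) ∧
    ∃ δ : ℕ, ∀ b : Fin N → (QC Cc), DegLe (QC Cc) δ t (cmb l b) := by
  classical
  have hac : IsAlgClosed (QC Cc) := (algebraicClosure.isAlgClosure ℚ Cc).isAlgClosed
  have hch : CharZero (QC Cc) := inferInstance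
  set F : IntermediateField (QC Cc) Cc := adjoin (QC Cc) ({t} ∪ Set.range l) with hF
  set t' : F := ⟨t, subset_adjoin _ _ (Or.inl rfl)⟩ with ht'
  set x : Fin N → F := fun j => ⟨l j, subset_adjoin _ _ (Or.inr ⟨j, rfl⟩)⟩ with hx
  have htt' : Transcendental (QC Cc) t' := by
    intro h1
    exact ht (h1.algebraMap (A := Cc))
  have hxalg : ∀ j, IsAlgebraic (QC Cc)⟮t'⟯ (x j) := by
    intro j
    have h1 : DegLe (QC Cc) (minpoly (QC Cc)⟮t⟯ (l j)).natDegree t (l j) :=
      degLe_of_minpoly (hall j) le_rfl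
    have h2 : DegLe (QC Cc) (minpoly (QC Cc)⟮t⟯ (l j)).natDegree t' (x j) :=
      (degLe_map_iff F.val t' (x j) _).1 h1
    exact (h2.minpoly_le htt' (QC Cc)⟮t'⟯ (AdjoinSimple.gen (QC Cc) t')
      (AdjoinSimple.algebraMap_gen (QC Cc) t')).1
  have htop0 : adjoin (QC Cc) ({t'} ∪ Set.range x) = ⊤ := by
    have himg : (Subtype.val '' ({t'} ∪ Set.range x) : Set Cc) = {t} ∪ Set.range l := by
      ext z
      simp only [Set.mem_image, Set.mem_union, Set.mem_singleton_iff, Set.mem_range]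
      constructor
      · rintro ⟨y, rfl | ⟨j, rfl⟩, rfl⟩
        · exact Or.inl rfl
        · exact Or.inr ⟨j, rfl⟩
      · rintro (rfl | ⟨j, rfl⟩)
        · exact ⟨t', Or.inl rfl, rfl⟩
        · exact ⟨x j, Or.inr ⟨j, rfl⟩, rfl⟩
    apply lift_injective F
    rw [lift_adjoin, lift_top, himg]
  have htop : adjoin (QC Cc)⟮t'⟯ (Set.range x) = ⊤ := by
    rw [← top_le_iff]
    intro z _
    have h1 : z ∈ (adjoin (QC Cc)⟮t'⟯ (Set.range x)).restrictScalars (QC Cc) := by
      rw [adjoin_adjoin_left, htop0]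
      exact mem_top
    exact h1
  have hfd0 : FiniteDimensional (QC Cc)⟮t'⟯ (adjoin (QC Cc)⟮t'⟯ (Set.range x)) := by
    apply finiteDimensional_adjoin
    rintro _ ⟨j, rfl⟩
    exact (hxalg j).isIntegral
  have hfd : FiniteDimensional (QC Cc)⟮t'⟯ F := by
    rw [htop] at hfd0
    exact LinearEquiv.finiteDimensional (topEquiv (F := (QC Cc)⟮t'⟯) (E := F)).toLinearEquiv
  have hcmb : ∀ b : Fin N → (QC Cc), cmb l b = F.val (∑ j, algebraMap (QC Cc) F (b j) * x j) := by
    intro b
    rw [map_sum, cmb]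
    refine Finset.sum_congr rfl fun j _ => ?_
    rw [map_mul, AlgHom.commutes]
    rfl
  refine ⟨?_, finrank (QC Cc)⟮t'⟯ F, ?_⟩
  · rcases Nat.eq_zero_or_pos N with hN | hN
    · subst hN
      exact ⟨0, fun d _ => by simp⟩
    -- linear independence
    have hlin : LinearIndependent (QC Cc) (Fin.cons 1 x : Fin (N + 1) → F) := by
      rw [Fintype.linearIndependent_iff]
      intro c hc
      rw [Fin.sum_univ_succ] at hc
      have h1 := congrArg (fun y : F => (y : Cc)) hc
      simp only [Fin.cons_zero, Fin.cons_succ, ZeroMemClass.coe_zero] at h1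
      push_cast at h1
      have h2 := baker' l hli (c 0 : Cc) (mem_QC.mp (c 0).2)
        (fun j => (c j.succ : Cc)) (fun j => mem_QC.mp (c j.succ).2) (by
          rw [← h1]
          congr 1
          rw [Algebra.smul_def, mul_one]
          rfl)
      intro i
      refine Fin.cases ?_ (fun j => ?_) i
      · exact_mod_cast h2.1
      · exact_mod_cast h2.2 j
    have hcons : Set.range (Fin.cons 1 x : Fin (N + 1) → F) = {1} ∪ Set.range x := by
      rw [Fin.range_cons, Set.singleton_union]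
    obtain ⟨b, hb⟩ := core t' hfd x htop ⟨0, hN⟩ (by
      rintro ⟨c, hc⟩
      obtain ⟨h1, h2⟩ := linearIndependent_finCons.mp hlin
      have hc0 : c ≠ 0 := by
        rintro rfl
        rw [map_zero] at hc
        exact h1.ne_zero ⟨0, hN⟩ hc
      apply h2
      have h3 : (1 : F) = c⁻¹ • x ⟨0, hN⟩ := by
        rw [hc, Algebra.smul_def, ← map_mul, inv_mul_cancel₀ hc0, map_one]
      rw [h3]
      exact Submodule.smul_mem _ _ (Submodule.subset_span ⟨_, rfl⟩)) ((N + 1) ^ 2 / 4) (by
      intro m hm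
      set V : Submodule (QC Cc) F := Submodule.span (QC Cc) ({1} ∪ Set.range x) with hV
      have hVr : finrank (QC Cc) V = N + 1 := by
        rw [hV, ← hcons, finrank_span_eq_card hlin, Fintype.card_fin]
      have hVfd : FiniteDimensional (QC Cc) V := FiniteDimensional.span_of_finite (QC Cc)
        ((Set.finite_singleton _).union (Set.finite_range x))
      have hinj : Function.Injective F.val.toLinearMap := Subtype.val_injective
      have hmap : ∀ W : Submodule (QC Cc) F, finrank (QC Cc) (W.map F.val.toLinearMap) = finrank (QC Cc) W :=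
        fun W => (Submodule.equivMapOfInjective F.val.toLinearMap hinj W).finrank_eq.symm
      have hpow : ∀ k, (V ^ k).map F.val.toLinearMap = (V.map F.val.toLinearMap) ^ k := by
        intro k
        exact Submodule.map_pow V F.val k
      have h1 := pow_growth (Lt := Lt) (V.map F.val.toLinearMap) (by
        rw [hV, Submodule.map_span, Submodule.span_le]
        rintro _ ⟨y, hy | ⟨i, rfl⟩, rfl⟩
        · rw [Set.mem_singleton_iff] at hy
          subst hy
          exact Lt_one
        · exact hlL i) ⟨1, Submodule.subset_span (Or.inl rfl), rfl⟩ m hm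
      rw [← hpow, ← hpow, hmap, hmap, hmap, hVr] at h1
      exact h1)
    refine ⟨b, fun d hd => hb d ?_⟩
    rw [hcmb] at hd
    exact (degLe_map_iff F.val _ t' d).1 hd
  · intro b
    rw [hcmb]
    refine (degLe_map_iff F.val t' _ _).2 ?_
    exact degLe_of_minpoly (Algebra.IsAlgebraic.isAlgebraic _) (minpoly.natDegree_le _)

/-- the degree of `t` over the field generated by the combination is large, in polynomial form -/
theorem exists_good {N : ℕ} (l : Fin N → Cc) (hlL : ∀ j, l j ∈ Lt)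
    (hli : LinearIndependent (QC Cc) (Fin.cons 1 l : Fin (N + 1) → Cc)) (t : Cc) (ht : Transcendental (QC Cc) t) :
    ∃ b : Fin N → (QC Cc), ∀ d, DegLe (QC Cc) d (cmb l b) t → (N + 1) ^ 2 / 4 ≤ d := by
  by_cases hA : ∃ b, ¬ IsAlgebraic (QC Cc)⟮t⟯ (cmb l b)
  · obtain ⟨b, hb⟩ := hA
    exact ⟨b, fun d hd => absurd (swap_alg hd ht) hb⟩
  · push Not at hA
    refine (exists_good_of_alg l hlL hli t ht ?_).1
    intro j
    have := hA (Pi.single j 1)
    rwa [cmb_single] at this

/-- **Generic degrees.** -/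
theorem generic_degree {N : ℕ} (l : Fin N → Cc) (hlL : ∀ j, l j ∈ Lt)
    (hli : LinearIndependent (QC Cc) (Fin.cons 1 l : Fin (N + 1) → Cc)) (t : Cc) (ht : Transcendental (QC Cc) t) :
    ∃ Δ : MvPolynomial (Fin N) (QC Cc), Δ ≠ 0 ∧ ∀ b : Fin N → (QC Cc), MvPolynomial.eval b Δ ≠ 0 →
      ∀ d, DegLe (QC Cc) d (cmb l b) t → (N + 1) ^ 2 / 4 ≤ d := by
  classical
  have hac : IsAlgClosed (QC Cc) := (algebraicClosure.isAlgClosure ℚ Cc).isAlgClosed
  by_cases hA : ∃ b, ¬ IsAlgebraic (QC Cc)⟮t⟯ (cmb l b)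
  · obtain ⟨b₀, hb₀⟩ := hA
    obtain ⟨Δ, hΔ0, hΔ⟩ := exists_form (algSub l t) (fun h => hb₀ (by
      have : b₀ ∈ algSub l t := by rw [h]; exact Submodule.mem_top
      exact this))
    exact ⟨Δ, hΔ0, fun b hb d hd => absurd (swap_alg hd ht) (hΔ b hb)⟩
  · push Not at hA
    obtain ⟨⟨b₀, hb₀⟩, δ, hδ⟩ := exists_good_of_alg l hlL hli t ht (by
      intro j
      have := hA (Pi.single j 1)
      rwa [cmb_single] at this)
    set c := (N + 1) ^ 2 / 4 with hc
    obtain ⟨Δ, hΔ0, -, hΔ⟩ := mono_open t l (Finset.range c ×ˢ Finset.range (δ + 1)) b₀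
      (indep_of_deg t (cmb l b₀) c hb₀ _ (by
        intro s hs
        exact Finset.mem_range.mp (Finset.mem_product.mp hs).1))
    refine ⟨Δ, hΔ0, ?_⟩
    intro b hb d hd
    by_contra hlt
    push Not at hlt
    obtain ⟨P, hP0, hP1, hP2, hP⟩ := simul t (cmb l b) ht δ d (hδ b) hd
    have h1 := hΔ b hb (fun s => (P.coeff s.1.2).coeff s.1.1) (by
      have h2 : aevalAeval t (cmb l b) P =
          ∑ j ∈ Finset.range (δ + 1), ∑ i ∈ Finset.range c,
            algebraMap (QC Cc) Cc ((P.coeff j).coeff i) * (t ^ i * (cmb l b) ^ j) := by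
        rw [aevalAeval_eq_eval₂, eval₂_eq_sum_range' _ (Nat.lt_succ_of_le hP1)]
        refine Finset.sum_congr rfl fun j _ => ?_
        have h3 : (P.coeff j).natDegree < c :=
          lt_of_le_of_lt ((natDegree_coeff_le P j).trans hP2) hlt
        change aeval t (P.coeff j) * _ = _
        rw [aeval_eq_sum_range' h3, Finset.sum_mul]
        refine Finset.sum_congr rfl fun i _ => ?_
        rw [Algebra.smul_def, mul_assoc]
      rw [hP] at h2
      rw [Finset.sum_comm] at h2
      rw [← Finset.sum_product'] at h2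
      rw [h2]
      rw [← Finset.sum_coe_sort (Finset.range c ×ˢ Finset.range (δ + 1))]
      refine Finset.sum_congr rfl fun s _ => ?_
      rw [Algebra.smul_def]
      rfl)
    apply hP0
    refine Polynomial.ext fun j => Polynomial.ext fun i => ?_
    rw [coeff_zero, coeff_zero]
    by_cases hj : j ≤ δ
    · by_cases hi : i < c
      · exact h1 ⟨(i, j), Finset.mem_product.mpr
          ⟨Finset.mem_range.mpr hi, Finset.mem_range.mpr (Nat.lt_succ_of_le hj)⟩⟩
      · apply coeff_eq_zero_of_natDegree_lt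
        have := (natDegree_coeff_le P j).trans hP2
        omega
    · rw [coeff_eq_zero_of_natDegree_lt (lt_of_le_of_lt hP1 (not_le.mp hj)), coeff_zero]

/-- the exponents of total degree at most `D` -/
def tri (D : ℕ) : Finset (ℕ × ℕ) :=
  (Finset.range (D + 1)).biUnion fun n => Finset.HasAntidiagonal.antidiagonal n

theorem mem_tri {D : ℕ} {s : ℕ × ℕ} : s ∈ tri D ↔ s.1 + s.2 ≤ D := by
  simp [tri]

theorem sum_tri (D : ℕ) : ∑ s ∈ tri D, s.2 = (D + 2).choose 3 := by
  rw [tri, Finset.sum_biUnion]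
  · have h1 : ∀ n, ∑ s ∈ Finset.HasAntidiagonal.antidiagonal n, s.2 = (n + 1).choose 2 := by
      intro n
      rw [Finset.Nat.sum_antidiagonal_eq_sum_range_succ (fun _ j => j)]
      rw [Nat.choose_two_right, ← Finset.sum_range_id]
      exact Finset.sum_range_reflect (fun j => j) (n + 1)
    rw [Finset.sum_congr rfl fun n _ => h1 n]
    induction D with
    | zero => simp
    | succ D ih =>
      rw [Finset.sum_range_succ, ih, add_comm, ← Nat.choose_succ_succ' (D + 2) 2]
  · intro a _ b _ hab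
    rw [Function.onFun, Finset.disjoint_left]
    intro s hs hs'
    rw [Finset.HasAntidiagonal.mem_antidiagonal] at hs hs'
    omega

/-- **No relations of small total degree.** -/
theorem generic_total {N : ℕ} (l : Fin N → Cc) (hlL : ∀ j, l j ∈ Lt)
    (hli : LinearIndependent (QC Cc) (Fin.cons 1 l : Fin (N + 1) → Cc)) (t : Cc) (ht : Transcendental (QC Cc) t) (D : ℕ)
    (hD : D < (N + 1) ^ 2 / 4) :
    ∃ Δ : MvPolynomial (Fin N) (QC Cc), Δ ≠ 0 ∧ Δ.totalDegree ≤ (D + 2).choose 3 ∧
      ∀ b : Fin N → (QC Cc), MvPolynomial.eval b Δ ≠ 0 →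
        ∀ P : MvPolynomial (Fin 2) (QC Cc), P.totalDegree ≤ D →
          MvPolynomial.aeval ![t, cmb l b] P = 0 → P = 0 := by
  classical
  have hac : IsAlgClosed (QC Cc) := (algebraicClosure.isAlgClosure ℚ Cc).isAlgClosed
  obtain ⟨b₀, hb₀⟩ := exists_good l hlL hli t ht
  obtain ⟨Δ, hΔ0, hΔd, hΔ⟩ := mono_open t l (tri D) b₀
    (indep_of_deg t (cmb l b₀) ((N + 1) ^ 2 / 4) hb₀ _ (by
      intro s hs
      have := mem_tri.mp hs
      omega))
  rw [sum_tri] at hΔd
  refine ⟨Δ, hΔ0, hΔd, ?_⟩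
  intro b hb P hPD hP
  let e : ℕ × ℕ → (Fin 2 →₀ ℕ) := fun s => Finsupp.equivFunOnFinite.symm ![s.1, s.2]
  have he : ∀ m : Fin 2 →₀ ℕ, e (m 0, m 1) = m := by
    intro m
    ext i
    fin_cases i <;> rfl
  have he' : ∀ s, e s 0 = s.1 ∧ e s 1 = s.2 := fun s => ⟨rfl, rfl⟩
  have hinj : Function.Injective (fun m : Fin 2 →₀ ℕ => (m 0, m 1)) := by
    intro m m' h
    rw [← he m, ← he m']
    exact congrArg e h
  have hdeg : ∀ m ∈ P.support, m 0 + m 1 ≤ D := by
    intro m hm
    have h1 := (MvPolynomial.le_totalDegree hm).trans hPD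
    rwa [sum_eq_two] at h1
  have h1 := hΔ b hb (fun s => MvPolynomial.coeff (e s.1) P) (by
    rw [Finset.sum_coe_sort (tri D) (fun s => MvPolynomial.coeff (e s) P •
      (t ^ s.1 * (∑ j, algebraMap (QC Cc) Cc (b j) * l j) ^ s.2))]
    rw [← Finset.sum_subset (s₁ := P.support.image (fun m => (m 0, m 1)))]
    · rw [Finset.sum_image (fun m _ m' _ h => hinj h)]
      rw [MvPolynomial.aeval_def, MvPolynomial.eval₂_eq'] at hP
      rw [← hP]
      refine Finset.sum_congr rfl fun m _ => ?_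
      simp only [he]
      rw [Fin.prod_univ_two, Algebra.smul_def]
      rfl
    · intro s hs
      obtain ⟨m, hm, rfl⟩ := Finset.mem_image.mp hs
      exact mem_tri.mpr (hdeg m hm)
    · intro s _ hs
      have h2 : e s ∉ P.support := fun h3 => hs (Finset.mem_image.mpr ⟨e s, h3, rfl⟩)
      rw [MvPolynomial.notMem_support_iff.mp h2, zero_smul])
  refine MvPolynomial.ext _ _ fun m => ?_
  rw [MvPolynomial.coeff_zero]
  by_cases hm : m ∈ P.support
  · have := h1 ⟨(m 0, m 1), mem_tri.mpr (hdeg m hm)⟩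
    simp only [he] at this
    exact this
  · exact MvPolynomial.notMem_support_iff.mp hm

end Pool.Agent.Y787.GL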