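import Pool.Agent.Y787.GL.U3

/-!
# All other combinations have large degree over a generic combination
-/

set_option autoImplicit false

namespace Pool.Agent.Y787.GL
open Polynomial IntermediateField Module Filter Pool.Agent.W256 Pool.Agent.H297R2
open Pool.Agent.TH519.GL
open Pool.Agent.Y787 (QC mem_QC HypC hyperplane hyperplane' Lt_one baker')

variable {Cc : Type} [Field Cc] [CharZero Cc] [IsAlgClosed Cc] {Lt : Submodule (QC Cc) Cc}
  [HypC Lt]

/-- ultrafilters of generic points of a set which is not contained in a hypersurface -/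
theorem exists_ultra {K : Type} [Field K] {N : ℕ} (B : Set (Fin N → K))
    (hB : ∀ Δ : MvPolynomial (Fin N) K, Δ ≠ 0 → ∃ b ∈ B, MvPolynomial.eval b Δ ≠ 0) :
    ∃ 𝒰 : Ultrafilter (Fin N → K), (∀ᶠ b in (𝒰 : Filter (Fin N → K)), b ∈ B) ∧
      ∀ Δ : MvPolynomial (Fin N) K, Δ ≠ 0 →
        ∀ᶠ b in (𝒰 : Filter (Fin N → K)), MvPolynomial.eval b Δ ≠ 0 := by
  let F : Filter (Fin N → K) :=
    { sets := {S | ∃ Δ : MvPolynomial (Fin N) K, Δ ≠ 0 ∧
        ∀ b ∈ B, MvPolynomial.eval b Δ ≠ 0 → b ∈ S}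
      univ_sets := ⟨1, one_ne_zero, fun b _ _ => Set.mem_univ b⟩
      sets_of_superset := by
        rintro S S' ⟨Δ, h1, h2⟩ hS
        exact ⟨Δ, h1, fun b hb h => hS (h2 b hb h)⟩
      inter_sets := by
        rintro S S' ⟨Δ, h1, h2⟩ ⟨Δ', h1', h2'⟩
        refine ⟨Δ * Δ', mul_ne_zero h1 h1', fun b hb h => ?_⟩
        rw [map_mul] at h
        exact ⟨h2 b hb (left_ne_zero_of_mul h), h2' b hb (right_ne_zero_of_mul h)⟩ }
  have hF : F.NeBot := by
    rw [neBot_iff, Ne, ← empty_mem_iff_bot]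
    rintro ⟨Δ, h1, h2⟩
    obtain ⟨b, hb, h3⟩ := hB Δ h1
    exact h2 b hb h3
  refine ⟨Ultrafilter.of F, ?_, fun Δ hΔ => ?_⟩
  · exact Ultrafilter.of_le F (show B ∈ F from ⟨1, one_ne_zero, fun b hb _ => hb⟩)
  · exact Ultrafilter.of_le F (show {b | MvPolynomial.eval b Δ ≠ 0} ∈ F from
      ⟨Δ, hΔ, fun b _ h => h⟩)

/-- a derivation which does not vanish at a transcendental element -/
theorem exists_D {K : Type*} [Field K] [Algebra K Cc] (z : Cc) (hz : Transcendental K z) :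
    ∃ D : Derivation ℤ Cc Cc, (∀ a : K, D (algebraMap K Cc a) = 0) ∧ D z = 1 := by
  set f : K[X] →+* Cc := (aeval z : K[X] →ₐ[K] Cc).toRingHom with hf
  have hinj : Function.Injective f := transcendental_iff_injective.1 hz
  set θ : K[X] →+* DualNumber Cc := eval₂RingHom ((TrivSqZeroExt.inlHom Cc Cc).comp (algebraMap K Cc))
    (TrivSqZeroExt.inl z + TrivSqZeroExt.inr 1) with hθ
  have h1 : ((TrivSqZeroExt.fstHom Cc Cc Cc).toRingHom).comp θ = f := by
    apply Polynomial.ringHom_ext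
    · intro r
      simp [hθ, hf]
    · simp [hθ, hf]
  obtain ⟨D, hD⟩ := exists_der f hinj θ (fun r => RingHom.congr_fun h1 r)
  refine ⟨D, fun a => ?_, ?_⟩
  · have := hD (C a)
    simpa [hθ, hf] using this
  · have := hD X
    simpa [hθ, hf] using this

theorem der_cmb' {N : ℕ} (D : Derivation ℤ Cc Cc) (hD : ∀ a : (QC Cc), D (algebraMap (QC Cc) Cc a) = 0)
    (l : Fin N → Cc) (b : Fin N → (QC Cc)) : D (cmb l b) = cmb (fun m => D (l m)) b := by
  rw [cmb, cmb, map_sum]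
  refine Finset.sum_congr rfl fun m _ => ?_
  rw [D.leibniz, hD, smul_zero, add_zero, smul_eq_mul]

theorem aevalAeval_sum (x y : Cc) (P : (QC Cc)[X][X]) (e E : ℕ) (he : P.natDegree ≤ e)
    (hE : ∀ t, (P.coeff t).natDegree ≤ E) :
    aevalAeval x y P = ∑ s ∈ Finset.range (E + 1), ∑ t ∈ Finset.range (e + 1),
      (((P.coeff t).coeff s : (QC Cc)) : Cc) * (x ^ s * y ^ t) := by
  rw [aevalAeval_eq_eval₂, eval₂_eq_sum_range' _ (Nat.lt_succ_of_le he), Finset.sum_comm]
  refine Finset.sum_congr rfl fun t _ => ?_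
  change aeval x (P.coeff t) * _ = _
  rw [aeval_eq_sum_range' (Nat.lt_succ_of_le (hE t)), Finset.sum_mul]
  refine Finset.sum_congr rfl fun s _ => ?_
  rw [Algebra.smul_def, mul_assoc]
  rfl

theorem aevalAeval_der (x y : Cc) (P : (QC Cc)[X][X]) (e E : ℕ) (he : P.natDegree ≤ e)
    (hE : ∀ t, (P.coeff t).natDegree ≤ E) :
    aevalAeval x y (derivative P) = ∑ s ∈ Finset.range (E + 1), ∑ t ∈ Finset.range (e + 1),
      (((P.coeff t).coeff s : (QC Cc)) : Cc) * (x ^ s * ((t : Cc) * y ^ (t - 1))) := by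
  conv_lhs => rw [as_sum_range' P (e + 1) (Nat.lt_succ_of_le he)]
  rw [derivative_sum, map_sum, Finset.sum_comm]
  refine Finset.sum_congr rfl fun t _ => ?_
  rw [derivative_monomial, ← C_mul_X_pow_eq_monomial, map_mul, aevalAeval_C, map_pow,
    aevalAeval_Y, map_mul, map_natCast, aeval_eq_sum_range' (Nat.lt_succ_of_le (hE t)),
    Finset.sum_mul, Finset.sum_mul]
  refine Finset.sum_congr rfl fun s _ => ?_
  rw [Algebra.smul_def, mul_assoc, mul_assoc]
  rfl

/-- a relation whose derivative does not vanish -/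
theorem exists_smooth (x y : Cc) (hx : Transcendental (QC Cc) x) (P : (QC Cc)[X][X]) (hP0 : P ≠ 0)
    (e E : ℕ) (he : P.natDegree ≤ e) (hE : ∀ t, (P.coeff t).natDegree ≤ E)
    (hP : aevalAeval x y P = 0) :
    ∃ p : ℕ → ℕ → (QC Cc),
      ∑ s ∈ Finset.range (E + 1), ∑ t ∈ Finset.range (e + 1),
        (p s t : Cc) * (x ^ s * y ^ t) = 0 ∧
      ∑ s ∈ Finset.range (E + 1), ∑ t ∈ Finset.range (e + 1),
        (p s t : Cc) * (x ^ s * ((t : Cc) * y ^ (t - 1))) ≠ 0 := by
  classical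
  induction hn : P.natDegree using Nat.strong_induction_on generalizing P with
  | _ n ih =>
    by_cases h0 : aevalAeval x y (derivative P) = 0
    · by_cases h1 : derivative P = 0
      · exfalso
        have h2 := Polynomial.derivative_eq_zero.1 h1
        rw [eq_C_of_natDegree_eq_zero h2, aevalAeval_C] at hP
        apply hP0
        rw [eq_C_of_natDegree_eq_zero h2, C_eq_zero]
        by_contra h3
        exact hx ⟨_, h3, hP⟩
      · have h2 : P.natDegree ≠ 0 := by
          intro h3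
          apply h1
          rw [eq_C_of_natDegree_eq_zero h3, derivative_C]
        have h3 := natDegree_derivative_lt h2
        refine ih _ (hn ▸ h3) (derivative P) h1 (h3.le.trans he) ?_ h0 rfl
        intro t
        rw [coeff_derivative]
        refine natDegree_mul_le.trans ?_
        have h4 : ((t : (QC Cc)[X]) + 1).natDegree = 0 := by
          have : (t : (QC Cc)[X]) + 1 = C ((t : (QC Cc)) + 1) := by simp
          rw [this, natDegree_C]
        rw [h4, add_zero]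
        exact hE _
    · refine ⟨fun s t => (P.coeff t).coeff s, ?_, ?_⟩
      · rw [← aevalAeval_sum x y P e E he hE, hP]
      · rw [← aevalAeval_der x y P e E he hE]
        exact h0

/-- slopes are transcendental -/
theorem slope_notMem (x y : Cc) (hxy : ∀ s : (QC Cc), y - algebraMap (QC Cc) Cc s * x ∉ (QC Cc)) (r : Cc)
    (hr : ∀ D : Derivation ℤ Cc Cc, (∀ a : (QC Cc), D (algebraMap (QC Cc) Cc a) = 0) → D y = r * D x) :
    r ∉ (QC Cc) := by
  intro hrQ
  obtain ⟨D, hD1, hD2⟩ := exists_D (K := (QC Cc)) _ (tr_iff.mpr (hxy ⟨r, hrQ⟩))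
  rw [map_sub, D.leibniz, hD1, smul_zero, add_zero, hr D hD1] at hD2
  have h3 : algebraMap (QC Cc) Cc ⟨r, hrQ⟩ = r := rfl
  rw [h3, smul_eq_mul, sub_self] at hD2
  exact zero_ne_one hD2

/-- the degree does not increase in subextensions -/
theorem degLe_of_mem {d : ℕ} {h t z : Cc} (hh : Transcendental (QC Cc) h) (hd : DegLe (QC Cc) d h t)
    (hmem : z ∈ (QC Cc)⟮h⟯⟮t⟯) : DegLe (QC Cc) d h z := by
  obtain ⟨halgt, hdt⟩ := hd.minpoly_le hh (QC Cc)⟮h⟯ (AdjoinSimple.gen (QC Cc) h)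
    (AdjoinSimple.algebraMap_gen (QC Cc) h)
  have hfd : FiniteDimensional (QC Cc)⟮h⟯ (QC Cc)⟮h⟯⟮t⟯ := adjoin.finiteDimensional halgt.isIntegral
  set z' : (QC Cc)⟮h⟯⟮t⟯ := ⟨z, hmem⟩ with hz
  have hzy : algebraMap (QC Cc)⟮h⟯⟮t⟯ Cc z' = z := rfl
  have hint : IsIntegral (QC Cc)⟮h⟯ z' := Algebra.IsIntegral.isIntegral z'
  have hmin : minpoly (QC Cc)⟮h⟯ z = minpoly (QC Cc)⟮h⟯ z' := by
    rw [← hzy]
    exact minpoly.algebraMap_eq (algebraMap (QC Cc)⟮h⟯⟮t⟯ Cc).injective z'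
  apply degLe_of_minpoly
  · rw [← hzy]
    exact hint.isAlgebraic.algebraMap
  · rw [hmin]
    refine (minpoly.natDegree_le z').trans ?_
    rw [adjoin.finrank halgt.isIntegral]
    exact hdt

end Pool.Agent.Y787.GL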