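import Pool.Agent.Y787.GL.U4

/-!
# All other combinations have large degree over a generic combination: the theorem
-/

set_option autoImplicit false

namespace Pool.Agent.Y787.GL
open Polynomial IntermediateField Module Filter Pool.Agent.W256 Pool.Agent.H297R2
open Pool.Agent.TH519.GL
open Pool.Agent.Y787 (QC mem_QC HypC hyperplane hyperplane' Lt_one baker')

variable {Cc : Type} [Field Cc] [CharZero Cc] [IsAlgClosed Cc] {Lt : Submodule (QC Cc) Cc}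
  [HypC Lt]

theorem slope_of_sum (x y : Cc) (S T : Finset ℕ) (p : ℕ → ℕ → (QC Cc))
    (h0 : ∑ s ∈ S, ∑ t ∈ T, (p s t : Cc) * (x ^ s * y ^ t) = 0)
    (h1 : ∑ s ∈ S, ∑ t ∈ T, (p s t : Cc) * (x ^ s * ((t : Cc) * y ^ (t - 1))) ≠ 0)
    (D : Derivation ℤ Cc Cc) (hD : ∀ a : (QC Cc), D (algebraMap (QC Cc) Cc a) = 0) :
    D y = -((∑ s ∈ S, ∑ t ∈ T, (p s t : Cc) * (((s : Cc) * x ^ (s - 1)) * y ^ t)) /
      (∑ s ∈ S, ∑ t ∈ T, (p s t : Cc) * (x ^ s * ((t : Cc) * y ^ (t - 1))))) * D x := by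
  have h2 := der_sum D S T (fun s t => (p s t : Cc)) x y
  rw [h0, map_zero] at h2
  have h3 : ∑ s ∈ S, ∑ t ∈ T, D (p s t : Cc) * (x ^ s * y ^ t) = 0 := by
    refine Finset.sum_eq_zero fun s _ => Finset.sum_eq_zero fun t _ => ?_
    have : D (p s t : Cc) = 0 := hD (p s t)
    rw [this, zero_mul]
  rw [h3, zero_add] at h2
  generalize (∑ s ∈ S, ∑ t ∈ T, (p s t : Cc) * (((s : Cc) * x ^ (s - 1)) * y ^ t)) = PX at h2 ⊢
  generalize (∑ s ∈ S, ∑ t ∈ T, (p s t : Cc) * (x ^ s * ((t : Cc) * y ^ (t - 1)))) = PY at h1 h2 ⊢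
  have h4 : D y = -(PX * D x) / PY := by
    rw [eq_div_iff h1]
    linear_combination -h2
  rw [h4]
  ring

/-- an endomorphism over the field generated by two elements -/
theorem exists_move' {E : ℕ} {x y u : Cc} (hx : Transcendental (QC Cc) x) (hxu : DegLe (QC Cc) E x u)
    (hnot : u ∉ (QC Cc)⟮x⟯⟮y⟯) : ∃ σ : Cc →ₐ[(QC Cc)] Cc, σ x = x ∧ σ y = y ∧ σ u ≠ u := by
  set L : IntermediateField (QC Cc) Cc := ((QC Cc)⟮x⟯⟮y⟯).restrictScalars (QC Cc) with hL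
  have hnotL : u ∉ L := hnot
  have hyL : y ∈ L := mem_adjoin_simple_self _ y
  have hxL : x ∈ L := by
    have : algebraMap (QC Cc)⟮x⟯ Cc (AdjoinSimple.gen (QC Cc) x) ∈ (QC Cc)⟮x⟯⟮y⟯ :=
      IntermediateField.algebraMap_mem _ _
    rwa [AdjoinSimple.algebraMap_gen] at this
  have hxL' : IsAlgebraic L x := isAlgebraic_algebraMap (⟨x, hxL⟩ : L)
  have hlL : IsAlgebraic L u := by
    set Ω : IntermediateField L Cc := algebraicClosure L Cc with hΩ
    have : Algebra.IsAlgebraic L Ω := algebraicClosure.isAlgebraic L Cc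
    have hst : IsScalarTower (QC Cc) Ω Cc := IsScalarTower.of_algebraMap_eq (fun _ => rfl)
    obtain ⟨h2, -⟩ := hxu.minpoly_le hx Ω ⟨x, mem_algebraicClosure_iff.2 hxL'⟩ rfl
    exact h2.restrictScalars L
  obtain ⟨σ, hσL, hσ⟩ := exists_move L u hlL hnotL
  exact ⟨σ, hσL _ hxL, hσL _ hyL, hσ⟩

/-- **Every other combination has large degree over a generic one.** -/
theorem every_other {N : ℕ} (l : Fin N → Cc) (hlL : ∀ j, l j ∈ Lt)
    (hli : LinearIndependent (QC Cc) (Fin.cons 1 l : Fin (N + 1) → Cc)) (t₀ : Cc) :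
    ∃ Δ : MvPolynomial (Fin N) (QC Cc), Δ ≠ 0 ∧ ∀ b : Fin N → (QC Cc), MvPolynomial.eval b Δ ≠ 0 →
      ∀ a : Fin N → (QC Cc), (∀ s : (QC Cc), cmb l a + t₀ - algebraMap (QC Cc) Cc s * cmb l b ∉ (QC Cc)) →
        ∀ d, DegLe (QC Cc) d (cmb l b) (cmb l a + t₀) → (N + 1) ^ 2 / 4 ≤ d := by
  classical
  rcases Nat.eq_zero_or_pos N with hN | hN
  · subst hN
    exact ⟨1, one_ne_zero, fun b _ a hab d _ => by simp⟩
  by_contra hcon
  push Not at hcon
  set c := (N + 1) ^ 2 / 4 with hc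
  have hc1 : 1 ≤ c := by
    have h1 : 4 ≤ (N + 1) ^ 2 := by nlinarith
    omega
  set j0 : Fin N := ⟨0, hN⟩ with hj0
  set B : Set (Fin N → (QC Cc)) := {b | ∃ a, (∀ s : (QC Cc), cmb l a + t₀ - algebraMap (QC Cc) Cc s * cmb l b ∉ (QC Cc))
    ∧ ∃ d, DegLe (QC Cc) d (cmb l b) (cmb l a + t₀) ∧ d < c} with hB
  have hBne : ∀ Δ : MvPolynomial (Fin N) (QC Cc), Δ ≠ 0 → ∃ b ∈ B, MvPolynomial.eval b Δ ≠ 0 := by
    intro Δ hΔ
    obtain ⟨b, h1, a, h2, d, h3, h4⟩ := hcon Δ hΔ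
    exact ⟨b, ⟨a, h2, d, h3, h4⟩, h1⟩
  obtain ⟨𝒰, hUB, hgen⟩ := exists_ultra B hBne
  have hlt : ∀ j, Transcendental (QC Cc) (l j) := by
    intro j
    refine tr_iff.mpr fun h1 => ?_
    rw [← cmb_single l j] at h1
    have := cmb_notMem l hlL hli _ h1
    have h2 := congrFun this j
    simp at h2
  have hl0 : Transcendental (QC Cc) (l j0) := hlt j0
  obtain ⟨Δ₁, hΔ₁0, hΔ₁⟩ := generic_degree l hlL hli (l j0) hl0
  have hE1 := hgen Δ₁ hΔ₁0
  have hxt : ∀ b, MvPolynomial.eval b Δ₁ ≠ 0 → Transcendental (QC Cc) (cmb l b) := by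
    intro b hb
    rw [tr_iff]
    intro h1
    have hb0 := cmb_notMem l hlL hli b h1
    have h2 := hΔ₁ b hb 0 ⟨C X, by
      rw [Ne, C_eq_zero]
      exact X_ne_zero, by simp, by
      rw [aevalAeval_C, aeval_X, hb0, cmb_zero]⟩
    omega
  have ha' : ∀ b, ∃ a : Fin N → (QC Cc), b ∈ B →
      ((∀ s : (QC Cc), cmb l a + t₀ - algebraMap (QC Cc) Cc s * cmb l b ∉ (QC Cc)) ∧
      ∃ d, DegLe (QC Cc) d (cmb l b) (cmb l a + t₀) ∧ d < c) := by
    intro b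
    by_cases hb : b ∈ B
    · obtain ⟨a, h1, h2⟩ := hb
      exact ⟨a, fun _ => ⟨h1, h2⟩⟩
    · exact ⟨0, fun h => absurd h hb⟩
  choose a ha using ha'
  have hfin : ∀ r : (Fin N → (QC Cc)) → Cc, (∀ᶠ b in (𝒰 : Filter (Fin N → (QC Cc))),
      ∀ D : Derivation ℤ Cc Cc, (∀ a : (QC Cc), D (algebraMap (QC Cc) Cc a) = 0) →
        D (cmb l (a b) + t₀) = r b * D (cmb l b)) →
      ¬ ∀ᶠ b in (𝒰 : Filter (Fin N → (QC Cc))), r b ∈ (QC Cc) := by
    intro r hr hrQ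
    obtain ⟨b, h1, h2, h3⟩ := (hr.and (hrQ.and hUB)).exists
    exact slope_notMem (cmb l b) (cmb l (a b) + t₀) (ha b h3).1 (r b) h1 h2
  have hyt : ∀ b, b ∈ B → Transcendental (QC Cc) (cmb l (a b) + t₀) := by
    intro b hb
    rw [tr_iff]
    intro h1
    apply (ha b hb).1 0
    rw [map_zero, zero_mul, sub_zero]
    exact h1
  by_cases hall : ∀ j, IsAlgebraic (QC Cc)⟮l j0⟯ (l j)
  · -- first case
    obtain ⟨E, hE⟩ := good_cmb l (l j0) hl0 (by
      intro j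
      obtain ⟨P, h1, -, h3⟩ := degLe_of_minpoly (hall j) le_rfl
      refine ⟨max P.natDegree (Bivariate.swap P).natDegree, Or.inr ⟨hlt j, ?_, ?_⟩⟩
      · exact ⟨P, h1, le_max_left _ _, h3⟩
      · exact ⟨Bivariate.swap P, swap_ne_zero h1, le_max_right _ _,
          by rw [Bivariate.aevalAeval_swap, h3]⟩)
    -- `t₀` is algebraic over the field generated by the first logarithm
    obtain ⟨E', hE'⟩ : ∃ E', ∀ a : Fin N → (QC Cc), Good E' (l j0) (cmb l a + t₀) := by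
      obtain ⟨b, hbB, hbΔ⟩ := hBne Δ₁ hΔ₁0
      obtain ⟨hab, d, hd, hdc⟩ := ha b hbB
      have hx := hxt b hbΔ
      have hy := hyt b hbB
      obtain ⟨hx1, hx2⟩ := (hE b).resolve_left (tr_iff.mp hx) |>.2
      have h1 : DegLe (QC Cc) (E * d) (l j0) (cmb l (a b) + t₀) := DegLe.trans hl0 hx hx1 hd
      obtain ⟨P, hP0, -, hP⟩ := h1
      have h2 : Good (max P.natDegree (Bivariate.swap P).natDegree) (l j0)
          (cmb l (a b) + t₀) := Or.inr ⟨hy, ⟨P, hP0, le_max_left _ _, hP⟩,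
        ⟨Bivariate.swap P, swap_ne_zero hP0, le_max_right _ _,
          by rw [Bivariate.aevalAeval_swap, hP]⟩⟩
      refine ⟨Pool.Agent.Y787.GL.dd
        (max (max P.natDegree (Bivariate.swap P).natDegree) E), fun a' => ?_⟩
      have h3 := Good.add (D := max (max P.natDegree (Bivariate.swap P).natDegree) E) hl0
        (h2.mono (le_max_left _ _)) ((hE (a' - a b)).mono (le_max_right _ _))
      have h4 : cmb l (a b) + t₀ + cmb l (a' - a b) = cmb l a' + t₀ := by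
        have : cmb l a' = cmb l (a' - a b) + cmb l (a b) := by
          rw [← cmb_add, sub_add_cancel]
        rw [this]
        ring
      rw [h4] at h3
      exact h3
    have hp' : ∀ b, ∃ (p : ℕ → ℕ → (QC Cc)) (σ : Cc →ₐ[(QC Cc)] Cc), b ∈ B → MvPolynomial.eval b Δ₁ ≠ 0 →
        (∑ s ∈ Finset.range (E' * E + 1), ∑ t ∈ Finset.range (c - 1 + 1),
          (p s t : Cc) * (cmb l b ^ s * (cmb l (a b) + t₀) ^ t) = 0 ∧
        ∑ s ∈ Finset.range (E' * E + 1), ∑ t ∈ Finset.range (c - 1 + 1),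
          (p s t : Cc) * (cmb l b ^ s * ((t : Cc) * (cmb l (a b) + t₀) ^ (t - 1))) ≠ 0) ∧
        (σ (cmb l b) = cmb l b ∧ σ (cmb l (a b) + t₀) = cmb l (a b) + t₀ ∧
          ∃ j, σ (l j) ≠ l j) := by
      intro b
      by_cases hb : b ∈ B ∧ MvPolynomial.eval b Δ₁ ≠ 0
      · obtain ⟨hbB, hbΔ⟩ := hb
        obtain ⟨hab, d, hd, hdc⟩ := ha b hbB
        have hx := hxt b hbΔ
        have hy := hyt b hbB
        obtain ⟨hx1, hx2⟩ := (hE b).resolve_left (tr_iff.mp hx) |>.2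
        obtain ⟨hy1, hy2⟩ := (hE' (a b)).resolve_left (tr_iff.mp hy) |>.2
        have hyx : DegLe (QC Cc) (E' * E) (cmb l (a b) + t₀) (cmb l b) := DegLe.trans hy hl0 hy2 hx1
        obtain ⟨P, hP0, hP1, hP2, hP⟩ := simul (cmb l b) (cmb l (a b) + t₀) hx (c - 1) (E' * E)
          (hd.mono (by omega)) hyx
        obtain ⟨p, hp1, hp2⟩ := exists_smooth _ _ hx P hP0 (c - 1) (E' * E) hP1
          (fun t => (natDegree_coeff_le P t).trans hP2) hP
        -- the endomorphism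
        have hnot : l j0 ∉ (QC Cc)⟮cmb l b⟯⟮cmb l (a b) + t₀⟯ := by
          intro hmem
          have h1 := hΔ₁ b hbΔ d (degLe_of_mem hx hd hmem)
          omega
        obtain ⟨σ, hσ1, hσ2, hσ3⟩ := exists_move' hx hx2 hnot
        exact ⟨p, σ, fun _ _ => ⟨⟨hp1, hp2⟩, hσ1, hσ2, j0, hσ3⟩⟩
      · exact ⟨fun _ _ => 0, AlgHom.id (QC Cc) Cc, fun h1 h2 => absurd ⟨h1, h2⟩ hb⟩
    choose p σ hpσ using hp'
    have hev := hUB.and hE1
    have hU := ultra_sigma 𝒰 hgen l t₀ a (Finset.range (E' * E + 1)) (Finset.range (c - 1 + 1))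
      (fun s t b => p b s t) σ (hev.mono fun b hb => (hpσ b hb.1 hb.2).1.1)
      (hev.mono fun b hb => (hpσ b hb.1 hb.2).1.2) (hev.mono fun b hb => (hpσ b hb.1 hb.2).2)
    obtain ⟨q, hq⟩ : ∃ q : (Fin N → (QC Cc)) → Cc, ∀ b, q b =
      (∑ s ∈ Finset.range (E' * E + 1), ∑ t ∈ Finset.range (c - 1 + 1),
        (p b s t : Cc) * (((s : Cc) * cmb l b ^ (s - 1)) * (cmb l (a b) + t₀) ^ t)) /
      (∑ s ∈ Finset.range (E' * E + 1), ∑ t ∈ Finset.range (c - 1 + 1),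
        (p b s t : Cc) * (cmb l b ^ s * ((t : Cc) * (cmb l (a b) + t₀) ^ (t - 1)))) :=
      ⟨_, fun b => rfl⟩
    refine hfin (fun b => -q b) ?_ ?_
    · refine hev.mono fun b hb D hD => ?_
      rw [hq b]
      exact slope_of_sum _ _ _ _ _ (hpσ b hb.1 hb.2).1.1 (hpσ b hb.1 hb.2).1.2 D hD
    · refine hU.mono fun b hb => ?_
      apply (QC Cc).neg_mem
      rw [hq b]
      exact hb
  · -- second case
    push Not at hall
    obtain ⟨j1, hj1⟩ := hall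
    have hr' : ∀ b, ∃ r : Cc, b ∈ B → MvPolynomial.eval b Δ₁ ≠ 0 →
        ∀ D : Derivation ℤ Cc Cc, (∀ a : (QC Cc), D (algebraMap (QC Cc) Cc a) = 0) →
          D (cmb l (a b) + t₀) = r * D (cmb l b) := by
      intro b
      by_cases hb : b ∈ B ∧ MvPolynomial.eval b Δ₁ ≠ 0
      · obtain ⟨hbB, hbΔ⟩ := hb
        obtain ⟨hab, d, ⟨P, hP0, hPd, hP⟩, hdc⟩ := ha b hbB
        obtain ⟨p, hp1, hp2⟩ := exists_smooth _ _ (hxt b hbΔ) P hP0 d
          (Bivariate.swap P).natDegree hPd (fun t => natDegree_coeff_le P t) hP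
        exact ⟨_, fun _ _ D hD => slope_of_sum _ _ _ _ _ hp1 hp2 D hD⟩
      · exact ⟨0, fun h1 h2 => absurd ⟨h1, h2⟩ hb⟩
    choose r hr using hr'
    have hev := hUB.and hE1
    refine hfin r (hev.mono fun b hb => hr b hb.1 hb.2) ?_
    obtain ⟨D₁, hD₁, hD₁'⟩ := exists_D (K := (QC Cc)) (l j0) hl0
    obtain ⟨D₂, hD₂, hD₂'⟩ := exists_D (K := (QC Cc)⟮l j0⟯) (l j1) hj1
    have hD₂0 : ∀ a : (QC Cc), D₂ (algebraMap (QC Cc) Cc a) = 0 := by
      intro a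
      rw [IsScalarTower.algebraMap_apply (QC Cc) (QC Cc)⟮l j0⟯ Cc]
      exact hD₂ _
    have hD₂1 : D₂ (l j0) = 0 := by
      have := hD₂ (AdjoinSimple.gen (QC Cc) (l j0))
      rwa [AdjoinSimple.algebraMap_gen] at this
    have hne : (0 : Fin N → Cc) ≠ fun m => D₂ (l m) := by
      intro h1
      have h2 := congrFun h1 j1
      rw [hD₂'] at h2
      exact zero_ne_one h2
    obtain ⟨Δ₃, hΔ₃0, hΔ₃⟩ := exists_form (agree (fun m => D₂ (l m)) 0) (agree_ne_top hne)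
    refine ultra_two 𝒰 hgen a r (fun m => D₁ (l m)) (fun m => D₂ (l m)) (D₁ t₀) (D₂ t₀) ?_ ?_ ?_
    · refine hev.mono fun b hb => ?_
      have := hr b hb.1 hb.2 D₁ hD₁
      rwa [map_add, der_cmb' D₁ hD₁, der_cmb' D₁ hD₁] at this
    · refine hev.mono fun b hb => ?_
      have := hr b hb.1 hb.2 D₂ hD₂0
      rwa [map_add, der_cmb' D₂ hD₂0, der_cmb' D₂ hD₂0] at this
    · refine (hgen Δ₃ hΔ₃0).mono fun b hb => ⟨j0, ?_⟩
      rw [hD₁', hD₂1, mul_one, mul_zero, sub_zero]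
      intro h1
      apply hΔ₃ b hb
      change cmb (0 : Fin N → Cc) b = cmb (fun m => D₂ (l m)) b
      rw [h1]
      simp [cmb]

end Pool.Agent.Y787.GL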