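import Pool.Agent.Y787.GL.U5

/-!
# The elements of the span of the logarithms and one more number
-/

set_option autoImplicit false

namespace Pool.Agent.Y787.GL
open Polynomial IntermediateField Module Filter Pool.Agent.W256 Pool.Agent.H297R2
open Pool.Agent.TH519.GL
open Pool.Agent.Y787 (QC mem_QC HypC hyperplane hyperplane' Lt_one baker')

variable {Cc : Type} [Field Cc] [CharZero Cc] [IsAlgClosed Cc] {Lt : Submodule (QC Cc) Cc}
  [HypC Lt]

theorem exists_form_of_span {N : ℕ} (l : Fin N → Cc) (t y : Cc)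
    (hy : y ∈ Submodule.span (QC Cc) ({1, t} ∪ Set.range l)) :
    ∃ (a₀ s : (QC Cc)) (a : Fin N → (QC Cc)), y = algebraMap (QC Cc) Cc a₀ + algebraMap (QC Cc) Cc s * t + cmb l a := by
  rw [Submodule.span_union, Submodule.mem_sup] at hy
  obtain ⟨u, hu, v, hv, rfl⟩ := hy
  obtain ⟨a₀, s, rfl⟩ := Submodule.mem_span_pair.mp hu
  obtain ⟨a, rfl⟩ := (Submodule.mem_span_range_iff_exists_fun (QC Cc)).mp hv
  refine ⟨a₀, s, a, ?_⟩
  rw [Algebra.smul_def, Algebra.smul_def, mul_one, cmb]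
  congr 1

theorem every_other_span {N : ℕ} (l : Fin N → Cc) (hlL : ∀ j, l j ∈ Lt)
    (hli : LinearIndependent (QC Cc) (Fin.cons 1 l : Fin (N + 1) → Cc)) (t : Cc) :
    ∃ Δ : MvPolynomial (Fin N) (QC Cc), Δ ≠ 0 ∧ ∀ b : Fin N → (QC Cc), MvPolynomial.eval b Δ ≠ 0 →
      ∀ y ∈ Submodule.span (QC Cc) ({1, t} ∪ Set.range l), y ∉ Submodule.span (QC Cc) {1, cmb l b} →
        ∀ d, DegLe (QC Cc) d (cmb l b) y → (N + 1) ^ 2 / 4 ≤ d := by
  classical
  rcases Nat.eq_zero_or_pos N with hN | hN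
  · subst hN
    exact ⟨1, one_ne_zero, fun b _ y _ _ d _ => by simp⟩
  obtain ⟨Δ₁, h1, h1'⟩ := every_other l hlL hli t
  obtain ⟨Δ₂, h2, h2'⟩ := every_other l hlL hli 0
  obtain ⟨Δ₃, h3, h3'⟩ := exists_form (⊥ : Submodule (QC Cc) (Fin N → (QC Cc))) (by
    intro h
    have h4 : (Pi.single ⟨0, hN⟩ 1 : Fin N → (QC Cc)) ∈ (⊥ : Submodule (QC Cc) (Fin N → (QC Cc))) := by
      rw [h]
      exact Submodule.mem_top
    rw [Submodule.mem_bot] at h4
    have := congrFun h4 ⟨0, hN⟩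
    simp at this)
  refine ⟨Δ₁ * Δ₂ * Δ₃, mul_ne_zero (mul_ne_zero h1 h2) h3, ?_⟩
  intro b hb y hy hyx d hd
  rw [map_mul, map_mul] at hb
  have hb1 := left_ne_zero_of_mul (left_ne_zero_of_mul hb)
  have hb2 := right_ne_zero_of_mul (left_ne_zero_of_mul hb)
  have hb3 := right_ne_zero_of_mul hb
  have hxt : Transcendental (QC Cc) (cmb l b) := by
    rw [tr_iff]
    intro h
    apply h3' b hb3
    rw [Submodule.mem_bot]
    exact cmb_notMem l hlL hli b h
  obtain ⟨a₀, s, a, hya⟩ := exists_form_of_span l t y hy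
  have hyy : y ∈ (QC Cc)⟮cmb l b⟯⟮y⟯ := mem_adjoin_simple_self _ y
  have hQ : ∀ c : (QC Cc), algebraMap (QC Cc) Cc c ∈ (QC Cc)⟮cmb l b⟯⟮y⟯ := by
    intro c
    rw [IsScalarTower.algebraMap_apply (QC Cc) (QC Cc)⟮cmb l b⟯ Cc]
    exact IntermediateField.algebraMap_mem _ _
  by_cases hs : s = 0
  · have e1 : cmb l a + 0 = y - algebraMap (QC Cc) Cc a₀ := by
      rw [hya, hs, map_zero]
      ring
    refine h2' b hb2 a ?_ d ?_
    · intro r hr
      apply hyx
      rw [e1] at hr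
      rw [Submodule.mem_span_pair]
      refine ⟨⟨_, hr⟩ + a₀, r, ?_⟩
      rw [Algebra.smul_def, Algebra.smul_def, map_add, mul_one]
      have : algebraMap (QC Cc) Cc ⟨_, hr⟩ = y - algebraMap (QC Cc) Cc a₀ - algebraMap (QC Cc) Cc r * cmb l b := rfl
      rw [this]
      ring
    · rw [e1]
      exact degLe_of_mem hxt hd (sub_mem hyy (hQ _))
  · have hs' : algebraMap (QC Cc) Cc s ≠ 0 := by simpa using hs
    have e1 : cmb l (s⁻¹ • a) + t = algebraMap (QC Cc) Cc s⁻¹ * (y - algebraMap (QC Cc) Cc a₀) := by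
      rw [cmb_smul, hya, map_inv₀]
      field_simp
      ring
    refine h1' b hb1 (s⁻¹ • a) ?_ d ?_
    · intro r hr
      apply hyx
      rw [e1] at hr
      rw [Submodule.mem_span_pair]
      refine ⟨s * ⟨_, hr⟩ + a₀, s * r, ?_⟩
      rw [Algebra.smul_def, Algebra.smul_def, map_add, map_mul, map_mul, mul_one]
      have : algebraMap (QC Cc) Cc ⟨_, hr⟩ = algebraMap (QC Cc) Cc s⁻¹ * (y - algebraMap (QC Cc) Cc a₀) -
        algebraMap (QC Cc) Cc r * cmb l b := rfl
      rw [this, map_inv₀]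
      field_simp
      ring
    · rw [e1]
      exact degLe_of_mem hxt hd (mul_mem (hQ _) (sub_mem hyy (hQ _)))

/-- linear independence over the field generated by `h` is a bound for the degree -/
theorem indep_of_degLe (t h : Cc) (c : ℕ) (H : ∀ d, DegLe (QC Cc) d h t → c ≤ d)
    (p : Fin c → (QC Cc)[X]) (hp : ∑ i, aeval h (p i) * t ^ (i : ℕ) = 0) : p = 0 := by
  classical
  by_contra hne
  obtain ⟨i₀, hi₀⟩ : ∃ i, p i ≠ 0 := by
    by_contra h1
    push Not at h1
    exact hne (funext h1)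
  have hc : 0 < c := lt_of_le_of_lt (Nat.zero_le _) i₀.2
  set P : (QC Cc)[X][X] := ∑ i : Fin c, monomial (i : ℕ) (p i) with hP
  have hcoef : P.coeff (i₀ : ℕ) = p i₀ := by
    rw [hP, finsetSum_coeff, Finset.sum_eq_single i₀]
    · rw [coeff_monomial, if_pos rfl]
    · intro i _ hi
      rw [coeff_monomial, if_neg fun h1 => hi (Fin.ext h1)]
    · intro h0; exact absurd (Finset.mem_univ _) h0
  have h1 : DegLe (QC Cc) (c - 1) h t := by
    refine ⟨P, ?_, ?_, ?_⟩
    · intro h0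
      apply hi₀
      rw [← hcoef, h0, coeff_zero]
    · apply natDegree_sum_le_of_forall_le
      intro i _
      refine (natDegree_monomial_le _).trans ?_
      have := i.2
      omega
    · rw [aevalAeval_eq_eval₂, hP, eval₂_finsetSum, ← hp]
      refine Finset.sum_congr rfl fun i _ => ?_
      rw [eval₂_monomial]
      rfl
  have := H _ h1
  omega

end Pool.Agent.Y787.GL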